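import Pool.Agent.R230.DP.Den

/-!
# A bounded sequence `c` for which `α ↦ Re ∑ c_n / (n! D_n(α))` is not analytic at `2π`
-/

set_option autoImplicit false

open Complex Set Filter Topology

namespace Pool.Agent.R230.DP

/-- `1 / (n! D_n(z))` -/
noncomputable def ph (n : ℕ) (z : ℂ) : ℂ := ((n.factorial : ℂ) * Dn n z)⁻¹

theorem ph_norm_le (n : ℕ) (z : ℂ) (hz : |(n : ℝ) * z.im| ≤ 1 / 4) :
    ‖ph n z‖ ≤ 12 / 5 / n.factorial := by
  have h := norm_Dn_ge n z hz
  have hf : (0 : ℝ) < n.factorial := by positivity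
  rw [ph, norm_inv, norm_mul, Complex.norm_natCast]
  rw [inv_le_comm₀ (by positivity) (by positivity), inv_div, div_div_eq_mul_div]
  rw [div_le_iff₀ (by norm_num)]
  nlinarith

theorem ph_differentiableAt (n : ℕ) (z : ℂ) (hz : |(n : ℝ) * z.im| ≤ 1 / 4) :
    DifferentiableAt ℂ (ph n) z := by
  unfold ph
  apply DifferentiableAt.inv
  · exact (differentiableAt_const _).mul (Dn_differentiable n z)
  · exact mul_ne_zero (by exact_mod_cast n.factorial_ne_zero) (Dn_ne n z hz)

theorem strip_isOpen (n : ℕ) : IsOpen {z : ℂ | |(n : ℝ) * z.im| < 1 / 4} := by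
  apply isOpen_lt
  · exact (continuous_const.mul Complex.continuous_im).abs
  · exact continuous_const

theorem ph_analyticOn (n : ℕ) : AnalyticOnNhd ℂ (ph n) {z : ℂ | |(n : ℝ) * z.im| < 1 / 4} := by
  have h : DifferentiableOn ℂ (ph n) {z : ℂ | |(n : ℝ) * z.im| < 1 / 4} :=
    fun z hz => (ph_differentiableAt n z (le_of_lt hz)).differentiableWithinAt
  exact h.analyticOnNhd (strip_isOpen n)

theorem real_mem_strip (n : ℕ) (x : ℝ) : (x : ℂ) ∈ {z : ℂ | |(n : ℝ) * z.im| < 1 / 4} := by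
  simp

theorem ph_analyticAt (n : ℕ) (x : ℝ) : AnalyticAt ℂ (ph n) (x : ℂ) :=
  ph_analyticOn n _ (real_mem_strip n x)

/-- the derivative of the `k`-th derivative, along the real axis -/
theorem hasDerivAt_iter (n k : ℕ) (x : ℝ) :
    HasDerivAt (fun y : ℝ => iteratedDeriv k (ph n) (y : ℂ)) (iteratedDeriv (k + 1) (ph n) (x : ℂ)) x := by
  have h1 : AnalyticAt ℂ (iteratedDeriv k (ph n)) (x : ℂ) := by
    have := (ph_analyticAt n x).iterated_deriv k
    rwa [← iteratedDeriv_eq_iterate] at this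
  have h2 := h1.differentiableAt.hasDerivAt
  rw [iteratedDeriv_succ]
  exact h2.comp_ofReal

/-- the bound for the derivatives on the real axis -/
noncomputable def Bd (k n : ℕ) : ℝ := k.factorial * (12 / 5 / n.factorial) / (1 / (4 * (n + 1))) ^ k

theorem iter_norm_le (n k : ℕ) (x : ℝ) : ‖iteratedDeriv k (ph n) (x : ℂ)‖ ≤ Bd k n := by
  have hR : (0 : ℝ) < 1 / (4 * (n + 1)) := by positivity
  have hin : ∀ z ∈ Metric.closedBall (x : ℂ) (1 / (4 * (n + 1))), |(n : ℝ) * z.im| ≤ 1 / 4 := by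
    intro z hz
    rw [mem_closedBall_iff_norm] at hz
    have h1 : |z.im| ≤ 1 / (4 * (n + 1)) := by
      have h2 : z.im = (z - x).im := by simp
      rw [h2]
      exact le_trans (abs_im_le_norm _) hz
    rw [abs_mul, abs_of_nonneg (Nat.cast_nonneg n)]
    calc (n : ℝ) * |z.im| ≤ (n : ℝ) * (1 / (4 * (n + 1))) := by gcongr
      _ ≤ 1 / 4 := by
        rw [mul_one_div, div_le_div_iff₀ (by positivity) (by norm_num)]
        nlinarith [(Nat.cast_nonneg n : (0 : ℝ) ≤ n)]
  unfold Bd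
  apply norm_iteratedDeriv_le_of_forall_mem_sphere_norm_le k hR
  · apply DifferentiableOn.diffContOnCl
    intro z hz
    apply (ph_differentiableAt n z _).differentiableWithinAt
    apply hin
    exact Metric.closure_ball_subset_closedBall hz
  · intro z hz
    exact ph_norm_le n z (hin z (Metric.sphere_subset_closedBall hz))

theorem Bd_nonneg (k n : ℕ) : 0 ≤ Bd k n := by
  unfold Bd; positivity

theorem Bd_summable (k : ℕ) : Summable (Bd k) := by
  have hs := (Real.summable_pow_div_factorial (Real.exp 1)).mul_left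
    (k.factorial * (12 / 5) * 4 ^ k * (k.factorial * Real.exp 1))
  refine Summable.of_nonneg_of_le (Bd_nonneg k) (fun n => ?_) hs
  have h1 : ((n : ℝ) + 1) ^ k ≤ k.factorial * Real.exp (n + 1) := by
    have h2 := Real.pow_div_factorial_le_exp ((n : ℝ) + 1) (by positivity) k
    rw [div_le_iff₀ (by positivity)] at h2
    linarith
  have h3 : Real.exp ((n : ℝ) + 1) = Real.exp 1 * Real.exp 1 ^ n := by
    rw [Real.exp_add, ← Real.exp_nat_mul, mul_one, mul_comm]
  have h4 : Bd k n = k.factorial * (12 / 5) * 4 ^ k * (((n : ℝ) + 1) ^ k) / n.factorial := by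
    unfold Bd
    rw [one_div, inv_pow, div_inv_eq_mul, mul_pow]
    ring
  rw [h3] at h1
  rw [h4]
  rw [div_le_iff₀ (by positivity)]
  have h5 : (0 : ℝ) ≤ k.factorial * (12 / 5) * 4 ^ k := by positivity
  have h6 := mul_le_mul_of_nonneg_left h1 h5
  have h7 : (n.factorial : ℝ) ≠ 0 := by positivity
  calc _ ≤ _ := h6
    _ = _ := by field_simp

/-- `k`-th derivatives of the sum -/
theorem deriv_sum (c : ℕ → ℂ) (K : ℝ) (hc : ∀ n, ‖c n‖ ≤ K) (k : ℕ) :
    iteratedDeriv k (fun x : ℝ => ∑' n, c n * ph n (x : ℂ))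
      = fun x : ℝ => ∑' n, c n * iteratedDeriv k (ph n) (x : ℂ) := by
  have hK : 0 ≤ K := le_trans (norm_nonneg _) (hc 0)
  have hb : ∀ (k n : ℕ) (x : ℝ), ‖c n * iteratedDeriv k (ph n) (x : ℂ)‖ ≤ K * Bd k n := by
    intro k n x
    rw [norm_mul]
    exact mul_le_mul (hc n) (iter_norm_le n k x) (norm_nonneg _) hK
  have hder : ∀ (k n : ℕ) (x : ℝ), HasDerivAt (fun y : ℝ => c n * iteratedDeriv k (ph n) (y : ℂ))
      (c n * iteratedDeriv (k + 1) (ph n) (x : ℂ)) x :=
    fun k n x => (hasDerivAt_iter n k x).const_mul (c n)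
  induction k with
  | zero => simp
  | succ k ih =>
    rw [iteratedDeriv_succ, ih]
    have h1 := deriv_tsum (𝕜 := ℝ) (u := fun n => K * Bd (k + 1) n)
      (g := fun n (x : ℝ) => c n * iteratedDeriv k (ph n) (x : ℂ)) (y₀ := 0)
      ((Bd_summable (k + 1)).mul_left K) (fun n x => (hder k n x).differentiableAt)
      (fun n x => by rw [(hder k n x).deriv]; exact hb (k + 1) n x)
      (Summable.of_norm_bounded ((Bd_summable k).mul_left K) (fun n => hb k n 0))
    rw [h1]
    funext x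
    exact tsum_congr (fun n => (hder k n x).deriv)

/-- Taylor coefficients of `ph n` at `2π` -/
noncomputable def bc (k n : ℕ) : ℂ := iteratedDeriv k (ph n) ((2 * Real.pi : ℝ) : ℂ) / k.factorial

theorem bc_norm_le (k n : ℕ) : ‖bc k n‖ ≤ Bd k n := by
  rw [bc, norm_div, Complex.norm_natCast]
  have h := iter_norm_le n k (2 * Real.pi)
  have h1 : (1 : ℝ) ≤ k.factorial := by exact_mod_cast Nat.one_le_iff_ne_zero.2 k.factorial_ne_zero
  exact le_trans (div_le_self (norm_nonneg _) h1) h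

theorem taylor_bound (c : ℕ → ℂ) (K : ℝ) (hc : ∀ n, ‖c n‖ ≤ K)
    (ha : AnalyticAt ℝ (fun x : ℝ => ∑' n, c n * ph n (x : ℂ)) (2 * Real.pi)) :
    ∃ C r : ℝ, 0 < C ∧ 0 < r ∧ ∀ k, ‖∑' n, c n * bc k n‖ ≤ C * r ^ k := by
  obtain ⟨p, rr, hp⟩ := ha
  obtain ⟨C, r, hC, hr, hb⟩ := p.le_mul_pow_of_radius_pos hp.radius_pos
  refine ⟨C, r, hC, hr, fun k => ?_⟩
  have h1 := hp.factorial_smul (1 : ℝ) k
  rw [← iteratedDeriv_eq_iteratedFDeriv, deriv_sum c K hc k] at h1
  have h2 : ∑' n, c n * bc k n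
      = (k.factorial : ℂ)⁻¹ * ∑' n, c n * iteratedDeriv k (ph n) ((2 * Real.pi : ℝ) : ℂ) := by
    rw [← tsum_mul_left]
    apply tsum_congr
    intro n
    rw [bc]
    ring
  rw [h2]
  have h3 : ∑' n, c n * iteratedDeriv k (ph n) ((2 * Real.pi : ℝ) : ℂ)
      = k.factorial • p k (fun _ => (1 : ℝ)) := h1.symm
  rw [h3, nsmul_eq_mul, ← mul_assoc, inv_mul_cancel₀ (by exact_mod_cast k.factorial_ne_zero), one_mul]
  refine le_trans ?_ (hb k)
  have h4 := (p k).le_opNorm (fun _ => (1 : ℝ))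
  simpa using h4

/-- the functional `c ↦ ∑ c_n bc_{k,n}` -/
noncomputable def Tk (k : ℕ) : BoundedContinuousFunction ℕ ℂ →L[ℂ] ℂ :=
  LinearMap.mkContinuous
    { toFun := fun c => ∑' n, c n * bc k n
      map_add' := by
        intro c d
        have hs : ∀ e : BoundedContinuousFunction ℕ ℂ, Summable (fun n => e n * bc k n) := by
          intro e
          refine Summable.of_norm_bounded ((Bd_summable k).mul_left ‖e‖) (fun n => ?_)
          rw [norm_mul]
          exact mul_le_mul (e.norm_coe_le_norm n) (bc_norm_le k n) (norm_nonneg _) (norm_nonneg _)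
        rw [← (hs c).tsum_add (hs d)]
        apply tsum_congr
        intro n
        simp only [BoundedContinuousFunction.coe_add, Pi.add_apply]
        ring
      map_smul' := by
        intro a c
        simp only [BoundedContinuousFunction.coe_smul, smul_eq_mul, RingHom.id_apply]
        rw [← tsum_mul_left]
        apply tsum_congr
        intro n
        ring }
    (∑' n, Bd k n)
    (by
      intro c
      simp only [LinearMap.coe_mk, AddHom.coe_mk]
      have h1 : ∀ n, ‖c n * bc k n‖ ≤ Bd k n * ‖c‖ := by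
        intro n
        rw [norm_mul, mul_comm]
        exact mul_le_mul (bc_norm_le k n) (c.norm_coe_le_norm n) (norm_nonneg _) (Bd_nonneg k n)
      rw [← tsum_mul_right]
      exact tsum_of_norm_bounded ((Bd_summable k).mul_right ‖c‖).hasSum h1)

theorem Tk_apply (k : ℕ) (c : BoundedContinuousFunction ℕ ℂ) : Tk k c = ∑' n, c n * bc k n := rfl

/-- uniform boundedness -/
theorem uniform (H : ∀ c : BoundedContinuousFunction ℕ ℂ,
    AnalyticAt ℝ (fun x : ℝ => ∑' n, c n * ph n (x : ℂ)) (2 * Real.pi)) :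
    ∃ K R : ℝ, 0 < K ∧ 0 < R ∧ ∀ k n, ‖bc k n‖ ≤ K * R ^ k := by
  set E : ℕ → Set (BoundedContinuousFunction ℕ ℂ) :=
    fun m => {c | ∀ k, ‖Tk k c‖ ≤ ((m : ℝ) + 1) ^ (k + 1)} with hE
  have hclosed : ∀ m, IsClosed (E m) := by
    intro m
    have : E m = ⋂ k, {c | ‖Tk k c‖ ≤ ((m : ℝ) + 1) ^ (k + 1)} := by
      ext c; simp [hE]
    rw [this]
    exact isClosed_iInter (fun k => isClosed_le (Tk k).continuous.norm continuous_const)
  have hU : ⋃ m, E m = univ := by
    rw [eq_univ_iff_forall]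
    intro c
    obtain ⟨C, r, hC, hr, hb⟩ := taylor_bound c ‖c‖ (fun n => c.norm_coe_le_norm n) (H c)
    obtain ⟨m, hm⟩ := exists_nat_ge (max C r)
    rw [mem_iUnion]
    refine ⟨m, fun k => ?_⟩
    rw [Tk_apply]
    refine le_trans (hb k) ?_
    have h1 : C ≤ (m : ℝ) + 1 := le_trans (le_trans (le_max_left _ _) hm) (by linarith)
    have h2 : r ≤ (m : ℝ) + 1 := le_trans (le_trans (le_max_right _ _) hm) (by linarith)
    rw [pow_succ, mul_comm]
    exact mul_le_mul (pow_le_pow_left₀ hr.le h2 k) h1 hC.le (by positivity)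
  obtain ⟨m, c0, hc0⟩ := nonempty_interior_of_iUnion_of_closed hclosed hU
  rw [mem_interior_iff_mem_nhds, Metric.mem_nhds_iff] at hc0
  obtain ⟨ρ, hρ, hball⟩ := hc0
  have hsmall : ∀ d : BoundedContinuousFunction ℕ ℂ, ‖d‖ < ρ → ∀ k,
      ‖Tk k d‖ ≤ 2 * ((m : ℝ) + 1) ^ (k + 1) := by
    intro d hd k
    have h1 : c0 + d ∈ E m := hball (by simpa [mem_ball_iff_norm] using hd)
    have h0 : c0 ∈ E m := hball (Metric.mem_ball_self hρ)
    have h2 := h1 k
    have h3 := h0 k
    have h4 : Tk k d = Tk k (c0 + d) - Tk k c0 := by rw [map_add]; ring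
    rw [h4]
    refine le_trans (norm_sub_le _ _) ?_
    linarith
  refine ⟨4 / ρ * ((m : ℝ) + 1), (m : ℝ) + 1, by positivity, by positivity, fun k n => ?_⟩
  -- unit vectors
  set d : BoundedContinuousFunction ℕ ℂ := BoundedContinuousFunction.ofNormedAddCommGroup
    (fun j : ℕ => if j = n then ((ρ / 2 : ℝ) : ℂ) else 0) continuous_of_discreteTopology (ρ / 2)
    (by
      intro j
      by_cases h : j = n
      · simp [h, abs_of_pos hρ]
      · simp only [h, if_false, norm_zero]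
        positivity) with hd
  have hdn : ‖d‖ < ρ := by
    have h1 : ‖d‖ ≤ ρ / 2 := BoundedContinuousFunction.norm_ofNormedAddCommGroup_le _ (by positivity) _
    linarith
  have h5 := hsmall d hdn k
  have h6 : Tk k d = ((ρ / 2 : ℝ) : ℂ) * bc k n := by
    rw [Tk_apply, tsum_eq_single n]
    · simp [hd]
    · intro j hj
      simp [hd, hj]
  rw [h6, norm_mul, Complex.norm_real, Real.norm_eq_abs, abs_of_pos (by positivity)] at h5
  have h7 : ‖bc k n‖ ≤ 2 * ((m : ℝ) + 1) ^ (k + 1) / (ρ / 2) := by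
    rw [le_div_iff₀ (by positivity)]
    linarith
  refine le_trans h7 (le_of_eq ?_)
  rw [pow_succ]
  field_simp
  ring

/-- the contradiction with the zeros of the denominators -/
theorem not_uniform : ¬ ∃ K R : ℝ, 0 < K ∧ 0 < R ∧ ∀ k n, ‖bc k n‖ ≤ K * R ^ k := by
  rintro ⟨K, R, hK, hR, hb⟩
  obtain ⟨n, z0, hz0, hD⟩ := exists_zero (1 / R) (by positivity)
  set p : FormalMultilinearSeries ℂ ℂ ℂ :=
    FormalMultilinearSeries.ofScalars ℂ (fun k => iteratedDeriv k (ph n) ((2 * Real.pi : ℝ) : ℂ) / k.factorial)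
    with hp
  have hps : HasFPowerSeriesAt (ph n) p ((2 * Real.pi : ℝ) : ℂ) := (ph_analyticAt n _).hasFPowerSeriesAt
  have hR1 : (0 : ℝ) < 1 / R := by positivity
  set q : NNReal := Real.toNNReal (1 / R) with hq
  have hqR : (q : ℝ) = 1 / R := Real.coe_toNNReal _ hR1.le
  have hrad : (q : ENNReal) ≤ p.radius := by
    apply p.le_radius_of_bound K
    intro k
    have h1 : ‖p k‖ ≤ ‖bc k n‖ := by
      rw [hp]
      rw [FormalMultilinearSeries.ofScalars_norm]
      exact le_refl _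
    have h2 := hb k n
    rw [hqR, one_div, inv_pow]
    rw [← div_eq_mul_inv, div_le_iff₀ (by positivity)]
    linarith
  have hpos : 0 < p.radius := by
    refine lt_of_lt_of_le ?_ hrad
    have : (0 : NNReal) < q := Real.toNNReal_pos.2 hR1
    exact_mod_cast this
  have hsum := (p.hasFPowerSeriesOnBall hpos).comp_sub ((2 * Real.pi : ℝ) : ℂ)
  rw [zero_add] at hsum
  have hAn : AnalyticOnNhd ℂ (fun z => p.sum (z - ((2 * Real.pi : ℝ) : ℂ)))
      (Metric.ball ((2 * Real.pi : ℝ) : ℂ) (1 / R)) := by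
    have h1 := hsum.analyticOnNhd
    apply h1.mono
    intro z hz
    have h3 : Metric.ball ((2 * Real.pi : ℝ) : ℂ) (1 / R)
        = Metric.eball ((2 * Real.pi : ℝ) : ℂ) (q : ENNReal) := by
      rw [Metric.eball_coe, hqR]
    rw [h3] at hz
    exact Metric.eball_subset_eball hrad hz
  have hprod : AnalyticOnNhd ℂ (fun z => (n.factorial : ℂ) * Dn n z
      * p.sum (z - ((2 * Real.pi : ℝ) : ℂ))) (Metric.ball ((2 * Real.pi : ℝ) : ℂ) (1 / R)) := by
    apply AnalyticOnNhd.mul _ hAn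
    apply AnalyticOnNhd.mul analyticOnNhd_const
    exact fun z _ => (Dn_differentiable n).analyticAt z
  have hone : AnalyticOnNhd ℂ (fun _ : ℂ => (1 : ℂ)) (Metric.ball ((2 * Real.pi : ℝ) : ℂ) (1 / R)) :=
    analyticOnNhd_const
  have hev : (fun z => (n.factorial : ℂ) * Dn n z * p.sum (z - ((2 * Real.pi : ℝ) : ℂ)))
      =ᶠ[𝓝 ((2 * Real.pi : ℝ) : ℂ)] (fun _ : ℂ => (1 : ℂ)) := by
    have h1 : (ph n) =ᶠ[𝓝 ((2 * Real.pi : ℝ) : ℂ)] (fun z => p.sum (z - ((2 * Real.pi : ℝ) : ℂ))) := by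
      obtain ⟨ε, hε⟩ := hps
      have h2 : ∀ᶠ z in 𝓝 ((2 * Real.pi : ℝ) : ℂ), z ∈ Metric.eball ((2 * Real.pi : ℝ) : ℂ) ε :=
        Metric.eball_mem_nhds _ hε.r_pos
      exact h2.mono (fun z hz => hε.unique (hsum.mono hε.r_pos hε.r_le) hz)
    have h3 : ∀ᶠ z in 𝓝 ((2 * Real.pi : ℝ) : ℂ), |(n : ℝ) * z.im| < 1 / 4 :=
      (strip_isOpen n).mem_nhds (real_mem_strip n _)
    filter_upwards [h1, h3] with z hz1 hz3
    rw [← hz1, ph]
    exact mul_inv_cancel₀ (mul_ne_zero (by exact_mod_cast n.factorial_ne_zero) (Dn_ne n z hz3.le))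
  have heq := hprod.eqOn_of_preconnected_of_eventuallyEq hone
    (convex_ball _ _).isPreconnected (Metric.mem_ball_self (by positivity)) hev
  have hz0' : z0 ∈ Metric.ball ((2 * Real.pi : ℝ) : ℂ) (1 / R) := by
    rw [mem_ball_iff_norm]
    simpa using hz0
  have := heq hz0'
  simp [hD] at this

/-- there is a bounded sequence for which the real part is not analytic -/
theorem exists_nonanalytic : ∃ c : BoundedContinuousFunction ℕ ℂ,
    ¬ AnalyticAt ℝ (fun x : ℝ => (∑' n, c n * ph n (x : ℂ)).re) (2 * Real.pi) := by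
  by_contra hcon
  push Not at hcon
  apply not_uniform
  apply uniform
  intro c
  have h1 := hcon c
  have h2 := hcon ((-I) • c)
  have e2 : (fun x : ℝ => (∑' n, ((-I) • c) n * ph n (x : ℂ)).re)
      = fun x : ℝ => (∑' n, c n * ph n (x : ℂ)).im := by
    funext x
    have : ∑' n, ((-I) • c) n * ph n (x : ℂ) = (-I) * ∑' n, c n * ph n (x : ℂ) := by
      rw [← tsum_mul_left]
      apply tsum_congr
      intro n
      simp only [BoundedContinuousFunction.coe_smul, smul_eq_mul]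
      ring
    rw [this]
    simp
  rw [e2] at h2
  have h3 : (fun x : ℝ => ∑' n, c n * ph n (x : ℂ)) = fun x : ℝ =>
      ofRealCLM ((∑' n, c n * ph n (x : ℂ)).re) + ofRealCLM ((∑' n, c n * ph n (x : ℂ)).im) * I := by
    funext x
    simp [re_add_im]
  rw [h3]
  apply AnalyticAt.add
  · exact (ofRealCLM.analyticAt _).comp h1
  · exact ((ofRealCLM.analyticAt _).comp h2).mul analyticAt_const

end Pool.Agent.R230.DP
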