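import Mathlib

/-!
# Delay differential equations with constant delays: hyperbolic periodic solutions, continuation

The equation is `x'(t) = f(x(t - r 0), x(t - r 1), ..., x(t - r M), α)` with `r 0 = 0`.
-/

set_option autoImplicit false

open Set

namespace Pool.Agent.R230.DP

variable {N M : ℕ}

/-- `x` solves `x'(t) = f(x(t - r 0), ..., x(t - r M), α)` for all real `t` -/
def IsSol (r : Fin (M + 1) → ℝ) (f : (Fin (M + 1) → Fin N → ℝ) × ℝ → Fin N → ℝ) (α : ℝ)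
    (x : ℝ → Fin N → ℝ) : Prop :=
  ∀ t, HasDerivAt x (f (fun k => x (t - r k), α)) t

/-- `p` is the minimal period of `x` (in particular `x` is periodic and not constant) -/
def HasMinPeriod (x : ℝ → Fin N → ℝ) (p : ℝ) : Prop :=
  0 < p ∧ (∀ t, x (t + p) = x t) ∧ ∀ q, 0 < q → q < p → ∃ t, x (t + q) ≠ x t

/-- complexification of a real linear map `(ℝ^N)^(M+1) → ℝ^N` -/
noncomputable def cplx (L : (Fin (M + 1) → Fin N → ℝ) →L[ℝ] (Fin N → ℝ))
    (v : Fin (M + 1) → Fin N → ℂ) : Fin N → ℂ :=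
  fun i => (L (fun k j => (v k j).re) i : ℂ) + (L (fun k j => (v k j).im) i : ℂ) * Complex.I

/-- The largest delay. -/
noncomputable def maxDelay (r : Fin (M + 1) → ℝ) : ℝ := ⨆ k, r k

/-- `y` (with complex values) is continuous on `[-maxDelay, T]` and solves on `[0, T]` the
variational equation `y'(t) = ∑ k, D_k f(x₀(t), x₀(t - r 1), ..., α₀) y(t - r k)` along `x₀` -/
def VarSol (r : Fin (M + 1) → ℝ) (f : (Fin (M + 1) → Fin N → ℝ) × ℝ → Fin N → ℝ) (α₀ : ℝ)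
    (x₀ : ℝ → Fin N → ℝ) (T : ℝ) (y : ℝ → Fin N → ℂ) : Prop :=
  ContinuousOn y (Icc (-maxDelay r) T) ∧
  ∀ t ∈ Icc (0 : ℝ) T, HasDerivWithinAt y
    (cplx (fderiv ℝ (fun u => f (u, α₀)) (fun k => x₀ (t - r k))) (fun k => y (t - r k)))
    (Icc 0 T) t

/-- the derivative of `x₀`, with complex values -/
noncomputable def cderiv (x₀ : ℝ → Fin N → ℝ) (t : ℝ) : Fin N → ℂ := fun i => ((deriv x₀ t i : ℝ) : ℂ)

/-- `x₀` is a hyperbolic periodic solution with minimal period `p₀` at the parameter `α₀`.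
Let `U` be the monodromy operator, which sends the segment `y|[-maxDelay, 0]` of a solution of the
variational equation to the segment `θ ↦ y(p₀ + θ)`.  The last two conditions say that every
`φ` with `(U - 1) φ ∈ ℂ x₀'` lies in `ℂ x₀'` (that is, `1` is an algebraically simple eigenvalue),
and that `U` has no eigenvalue `μ ≠ 1` with `|μ| = 1`. -/
def Hyperbolic (r : Fin (M + 1) → ℝ) (f : (Fin (M + 1) → Fin N → ℝ) × ℝ → Fin N → ℝ) (α₀ p₀ : ℝ)
    (x₀ : ℝ → Fin N → ℝ) : Prop :=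
  IsSol r f α₀ x₀ ∧ HasMinPeriod x₀ p₀ ∧
  (∀ (y : ℝ → Fin N → ℂ) (c : ℂ), VarSol r f α₀ x₀ p₀ y →
    (∀ θ ∈ Icc (-maxDelay r) 0, y (p₀ + θ) = y θ + c • cderiv x₀ θ) →
    ∃ d : ℂ, ∀ θ ∈ Icc (-maxDelay r) 0, y θ = d • cderiv x₀ θ) ∧
  (∀ (y : ℝ → Fin N → ℂ) (μ : ℂ), ‖μ‖ = 1 → μ ≠ 1 → VarSol r f α₀ x₀ p₀ y →
    (∀ θ ∈ Icc (-maxDelay r) 0, y (p₀ + θ) = μ • y θ) →
    ∀ θ ∈ Icc (-maxDelay r) 0, y θ = 0)

/-- `x(·, α)`, `p(α)` is the continuation of the periodic solution `x₀` to the parameters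
`|α - α₀| < δ`: a continuous family of periodic solutions which satisfies the section condition
`⟨x(0, α) - x₀(0), x₀'(0)⟩ = 0`, and every periodic solution near `x₀` with period near `p₀` which
satisfies the section condition belongs to it. -/
structure IsContinuation (r : Fin (M + 1) → ℝ) (f : (Fin (M + 1) → Fin N → ℝ) × ℝ → Fin N → ℝ)
    (α₀ p₀ : ℝ) (x₀ : ℝ → Fin N → ℝ) (δ : ℝ) (x : ℝ → ℝ → Fin N → ℝ) (p : ℝ → ℝ) : Prop where
  pos : 0 < δ
  base : x α₀ = x₀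
  basep : p α₀ = p₀
  sol : ∀ α, |α - α₀| < δ → IsSol r f α (x α) ∧ HasMinPeriod (x α) (p α)
  cond : ∀ α, |α - α₀| < δ → ∑ i, (x α 0 i - x₀ 0 i) * deriv x₀ 0 i = 0
  cont : ContinuousOn (fun q : ℝ × ℝ => x q.1 q.2) ({α | |α - α₀| < δ} ×ˢ univ)
  contp : ContinuousOn p {α | |α - α₀| < δ}
  unique : ∀ α, |α - α₀| < δ → ∀ (z : ℝ → Fin N → ℝ) (q : ℝ), IsSol r f α z → |q - p₀| < δ →
    (∀ t, z (t + q) = z t) → (∀ t, ‖z t - x₀ t‖ < δ) →
    ∑ i, (z 0 i - x₀ 0 i) * deriv x₀ 0 i = 0 → q = p α ∧ z = x α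

end Pool.Agent.R230.DP
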