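import Mathlib

/-!
# The denominators `D_n(z) = i n z + 2 - exp(-i n z)`

Lower bound near the real axis, and zeros which tend to `2π`.
-/

set_option autoImplicit false

open Complex Set Filter Topology

namespace Pool.Agent.R230.DP

/-- the denominator `i n z + 2 - exp(- i n z)` -/
noncomputable def Dn (n : ℕ) (z : ℂ) : ℂ := I * n * z + 2 - exp (-(I * n * z))

theorem exp_quarter : Real.exp (1 / 4) ≤ 4 / 3 := by
  have h := Real.add_one_le_exp (-(1 / 4 : ℝ))
  have h2 : Real.exp (1 / 4) * Real.exp (-(1 / 4)) = 1 := by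
    rw [← Real.exp_add]; norm_num
  have h3 : 0 < Real.exp (1 / 4) := Real.exp_pos _
  nlinarith

theorem Dn_re_ge (n : ℕ) (z : ℂ) (hz : |(n : ℝ) * z.im| ≤ 1 / 4) : 5 / 12 ≤ (Dn n z).re := by
  have h1 : (Dn n z).re = -((n : ℝ) * z.im) + 2
      - Real.exp ((n : ℝ) * z.im) * Real.cos ((n : ℝ) * z.re) := by
    have e1 : (I * (n : ℂ) * z) = ((-((n : ℝ) * z.im) : ℝ) : ℂ) + (((n : ℝ) * z.re : ℝ) : ℂ) * I := by
      apply Complex.ext
      · simp
      · simp
    rw [Dn, e1]
    have e2 : -((((-((n : ℝ) * z.im) : ℝ)) : ℂ) + (((n : ℝ) * z.re : ℝ) : ℂ) * I)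
        = ((((n : ℝ) * z.im : ℝ)) : ℂ) + ((-((n : ℝ) * z.re) : ℝ) : ℂ) * I := by
      push_cast; ring
    rw [e2, sub_re, exp_re]
    simp [Real.cos_neg]
  rw [h1]
  have h2 := abs_le.1 hz
  have h3 : Real.exp ((n : ℝ) * z.im) ≤ 4 / 3 :=
    le_trans (Real.exp_le_exp.2 h2.2) exp_quarter
  have h4 : Real.exp ((n : ℝ) * z.im) * Real.cos ((n : ℝ) * z.re) ≤ 4 / 3 * 1 := by
    have h5 := Real.cos_le_one ((n : ℝ) * z.re)
    have h6 := (Real.exp_pos ((n : ℝ) * z.im)).le
    nlinarith
  linarith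

theorem Dn_ne (n : ℕ) (z : ℂ) (hz : |(n : ℝ) * z.im| ≤ 1 / 4) : Dn n z ≠ 0 := by
  intro h
  have := Dn_re_ge n z hz
  rw [h] at this
  norm_num at this

theorem norm_Dn_ge (n : ℕ) (z : ℂ) (hz : |(n : ℝ) * z.im| ≤ 1 / 4) : 5 / 12 ≤ ‖Dn n z‖ :=
  le_trans (Dn_re_ge n z hz) (le_trans (le_abs_self _) (abs_re_le_norm _))

theorem Dn_differentiable (n : ℕ) : Differentiable ℂ (Dn n) := by
  unfold Dn
  fun_prop

/-- zeros of the denominators tend to `2π` -/
theorem exists_zero (ε : ℝ) (hε : 0 < ε) :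
    ∃ (n : ℕ) (z : ℂ), ‖z - 2 * Real.pi‖ < ε ∧ Dn n z = 0 := by
  have hlim : Tendsto (fun n : ℕ => (3 * Real.pi / 4 + Real.log 9) / (n : ℝ)
      + Real.log n / n) atTop (𝓝 (0 + 0)) := by
    apply Tendsto.add
    · exact tendsto_const_div_atTop_nhds_zero_nat _
    · have h := Real.isLittleO_log_id_atTop.tendsto_div_nhds_zero
      exact h.comp tendsto_natCast_atTop_atTop
  rw [add_zero] at hlim
  have hev := (hlim.eventually (gt_mem_nhds hε)).and (eventually_ge_atTop 2)
  obtain ⟨n, hn, hn2⟩ := hev.exists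
  have hn2' : (2 : ℝ) ≤ n := by exact_mod_cast hn2
  have hpi := Real.pi_gt_three
  have hpi4 := Real.pi_lt_four
  -- the function whose zero we want
  set G : ℝ → ℝ := fun s => (2 * Real.pi * n - s) * Real.cos s / Real.sin s - 2
    + Real.log ((2 * Real.pi * n - s) / Real.sin s) with hG
  have hsin : ∀ s ∈ Icc (Real.pi / 2) (3 * Real.pi / 4), 0 < Real.sin s := by
    intro s hs
    apply Real.sin_pos_of_pos_of_lt_pi
    · linarith [hs.1]
    · linarith [hs.2]
  have hpos : ∀ s ∈ Icc (Real.pi / 2) (3 * Real.pi / 4), 0 < 2 * Real.pi * n - s := by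
    intro s hs
    have h1 := hs.2
    nlinarith
  have hcont : ContinuousOn G (Icc (Real.pi / 2) (3 * Real.pi / 4)) := by
    have h1 : ContinuousOn (fun s : ℝ => (2 * Real.pi * n - s)) (Icc (Real.pi / 2) (3 * Real.pi / 4)) := by
      fun_prop
    have h2 : ContinuousOn (fun s : ℝ => (2 * Real.pi * n - s) * Real.cos s / Real.sin s)
        (Icc (Real.pi / 2) (3 * Real.pi / 4)) :=
      (h1.mul Real.continuous_cos.continuousOn).div Real.continuous_sin.continuousOn
        (fun s hs => (hsin s hs).ne')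
    have h3 : ContinuousOn (fun s : ℝ => Real.log ((2 * Real.pi * n - s) / Real.sin s))
        (Icc (Real.pi / 2) (3 * Real.pi / 4)) := by
      apply ContinuousOn.log
      · exact h1.div Real.continuous_sin.continuousOn (fun s hs => (hsin s hs).ne')
      · intro s hs
        exact (div_pos (hpos s hs) (hsin s hs)).ne'
    exact (h2.sub continuousOn_const).add h3
  have hle : Real.pi / 2 ≤ 3 * Real.pi / 4 := by linarith
  have hG1 : 0 ≤ G (Real.pi / 2) := by
    have h9 : Real.exp 2 ≤ 2 * Real.pi * n - Real.pi / 2 := by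
      have he : Real.exp 2 ≤ 9 := by
        have h1 := Real.exp_one_lt_d9
        have h2 : Real.exp 2 = Real.exp 1 * Real.exp 1 := by rw [← Real.exp_add]; norm_num
        rw [h2]
        have h3 := Real.exp_pos 1
        nlinarith
      nlinarith
    have h10 : (2 : ℝ) ≤ Real.log (2 * Real.pi * n - Real.pi / 2) := by
      rw [Real.le_log_iff_exp_le (by nlinarith)]
      exact h9
    simp only [hG, Real.cos_pi_div_two, Real.sin_pi_div_two, mul_zero, zero_div, div_one]
    linarith
  have hs34 : Real.sin (3 * Real.pi / 4) = Real.sqrt 2 / 2 := by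
    rw [show 3 * Real.pi / 4 = Real.pi - Real.pi / 4 by ring, Real.sin_pi_sub,
      Real.sin_pi_div_four]
  have hc34 : Real.cos (3 * Real.pi / 4) = -(Real.sqrt 2 / 2) := by
    rw [show 3 * Real.pi / 4 = Real.pi - Real.pi / 4 by ring, Real.cos_pi_sub,
      Real.cos_pi_div_four]
  have hsq : (Real.sqrt 2) ^ 2 = 2 := Real.sq_sqrt (by norm_num)
  have hsq0 : 0 < Real.sqrt 2 := Real.sqrt_pos.2 (by norm_num)
  have hG2 : G (3 * Real.pi / 4) ≤ 0 := by
    simp only [hG, hs34, hc34]
    have hA : 0 < 2 * Real.pi * n - 3 * Real.pi / 4 := by nlinarith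
    set A := 2 * Real.pi * n - 3 * Real.pi / 4 with hAdef
    have e1 : A * -(Real.sqrt 2 / 2) / (Real.sqrt 2 / 2) = -A := by
      field_simp
    have e2 : A / (Real.sqrt 2 / 2) = Real.sqrt 2 * A := by
      field_simp
      nlinarith
    rw [e1, e2, Real.log_mul hsq0.ne' hA.ne']
    have h1 := Real.log_le_sub_one_of_pos hA
    have h2 := Real.log_le_sub_one_of_pos hsq0
    have h3 : Real.sqrt 2 ≤ 2 := by nlinarith
    linarith
  obtain ⟨s, hs, hGs⟩ := intermediate_value_Icc' hle hcont ⟨hG2, hG1⟩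
  have hss := hsin s hs
  have hps := hpos s hs
  set u : ℝ := Real.log ((2 * Real.pi * n - s) / Real.sin s) with hu
  have heu : Real.exp u = (2 * Real.pi * n - s) / Real.sin s := Real.exp_log (div_pos hps hss)
  have e1 : Real.exp u * Real.sin s = 2 * Real.pi * n - s := by
    rw [heu]; field_simp
  have e2 : Real.exp u * Real.cos s = 2 - u := by
    have h1 : (2 * Real.pi * n - s) * Real.cos s / Real.sin s = 2 - u := by
      have : G s = (2 * Real.pi * n - s) * Real.cos s / Real.sin s - 2 + u := rfl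
      rw [this] at hGs
      linarith
    rw [heu, ← h1]; ring
  have hn0 : (n : ℝ) ≠ 0 := by positivity
  have hn0' : (n : ℂ) ≠ 0 := by exact_mod_cast hn0
  set z : ℂ := (((2 * Real.pi * n - s) / n : ℝ) : ℂ) + ((u / n : ℝ) : ℂ) * I with hz
  refine ⟨n, z, ?_, ?_⟩
  · -- closeness
    have e3 : z - 2 * Real.pi = (((-(s / n) : ℝ)) : ℂ) + ((u / n : ℝ) : ℂ) * I := by
      rw [hz]
      have : (2 * Real.pi * n - s) / n = 2 * Real.pi + (-(s / n)) := by field_simp; ring
      rw [this]
      push_cast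
      ring
    rw [e3]
    have h1 : ‖(((-(s / n) : ℝ)) : ℂ) + ((u / n : ℝ) : ℂ) * I‖ ≤ s / n + |u| / n := by
      refine le_trans (norm_add_le _ _) ?_
      rw [norm_mul, norm_I, mul_one, Complex.norm_real, Complex.norm_real, Real.norm_eq_abs,
        Real.norm_eq_abs, abs_neg, abs_div, abs_div, abs_of_pos (show (0:ℝ) < n by positivity),
        abs_of_pos (show 0 < s by linarith [hs.1])]
    have hu0 : 0 ≤ u := by
      apply Real.log_nonneg
      rw [le_div_iff₀ hss]
      have := Real.sin_le_one s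
      have h3 := hs.2
      nlinarith
    have hu1 : u ≤ Real.log 9 + Real.log n := by
      rw [hu, ← Real.log_mul (by norm_num) hn0]
      apply Real.log_le_log (div_pos hps hss)
      rw [div_le_iff₀ hss]
      have h3 : Real.sqrt 2 / 2 ≤ Real.sin s := by
        rw [← hs34]
        have h4 := Real.cos_le_cos_of_nonneg_of_le_pi (show 0 ≤ s - Real.pi / 2 by linarith [hs.1])
          (show Real.pi / 4 ≤ Real.pi by linarith) (show s - Real.pi / 2 ≤ Real.pi / 4 by linarith [hs.2])
        rw [Real.cos_sub_pi_div_two] at h4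
        rw [hs34]
        rw [Real.cos_pi_div_four] at h4
        exact h4
      have h5 : (1.4 : ℝ) ≤ Real.sqrt 2 := by
        apply Real.le_sqrt_of_sq_le
        norm_num
      have h6 : Real.pi < 3.15 := Real.pi_lt_d2
      have h7 : (0.7 : ℝ) ≤ Real.sin s := by linarith
      have h8 : 2 * Real.pi * n - s ≤ 6.3 * n := by
        have : 0 < s := by linarith [hs.1]
        nlinarith
      nlinarith
    rw [abs_of_nonneg hu0] at h1
    have h2 : s / n + u / n ≤ (3 * Real.pi / 4 + Real.log 9) / (n : ℝ) + Real.log n / n := by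
      rw [← add_div, ← add_div]
      apply div_le_div_of_nonneg_right _ (by positivity)
      linarith [hs.2]
    linarith
  · -- the zero
    have e4 : I * (n : ℂ) * z = ((-u : ℝ) : ℂ) + ((2 * Real.pi * n - s : ℝ) : ℂ) * I := by
      rw [hz]
      have : (((2 * Real.pi * n - s) / n : ℝ) : ℂ) = ((2 * Real.pi * n - s : ℝ) : ℂ) / n := by
        push_cast; rfl
      rw [this]
      have : ((u / n : ℝ) : ℂ) = (u : ℂ) / n := by push_cast; rfl
      rw [this]
      field_simp
      push_cast
      ring_nf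
      rw [I_sq]
      ring
    rw [Dn, e4]
    have e5 : -((((-u : ℝ)) : ℂ) + ((2 * Real.pi * n - s : ℝ) : ℂ) * I)
        = ((u : ℝ) : ℂ) + ((s - (n : ℤ) * (2 * Real.pi) : ℝ) : ℂ) * I := by
      push_cast; ring
    rw [e5]
    apply Complex.ext
    · rw [sub_re, exp_re]
      simp only [add_re, ofReal_re, mul_re, ofReal_im, I_re, I_im, add_im, mul_im, zero_mul,
        mul_zero, mul_one, sub_zero, add_zero, zero_add, sub_self, re_ofNat, zero_re]
      rw [Real.cos_sub_int_mul_two_pi, e2]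
      ring
    · rw [sub_im, exp_im]
      simp only [add_re, ofReal_re, mul_re, ofReal_im, I_re, I_im, add_im, mul_im, zero_mul,
        mul_zero, mul_one, sub_zero, add_zero, zero_add, sub_self, im_ofNat, zero_im]
      rw [Real.sin_sub_int_mul_two_pi, e1]
      ring

end Pool.Agent.R230.DP
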