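import Pool.Agent.R230.DP.Sys

/-!
# The family of periodic solutions, the variational equation
-/

set_option autoImplicit false

open Complex Set Filter Topology

namespace Pool.Agent.R230.DP

/-- the periodic solutions -/
noncomputable def xs (c : ℕ → ℂ) (α t : ℝ) : Fin 3 → ℝ :=
  ![Real.cos (α * t), Real.sin (α * t), (yc c α t).re]

theorem cos_deriv (α t : ℝ) : HasDerivAt (fun s : ℝ => Real.cos (α * s)) (-(α * Real.sin (α * t))) t := by
  have h1 : HasDerivAt (fun s : ℝ => α * s) α t := by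
    simpa using (hasDerivAt_id t).const_mul α
  have h2 := h1.cos
  have e : -(α * Real.sin (α * t)) = -Real.sin (α * t) * α := by ring
  rw [e]; exact h2

theorem sin_deriv (α t : ℝ) : HasDerivAt (fun s : ℝ => Real.sin (α * s)) (α * Real.cos (α * t)) t := by
  have h1 : HasDerivAt (fun s : ℝ => α * s) α t := by
    simpa using (hasDerivAt_id t).const_mul α
  have h2 := h1.sin
  have e : α * Real.cos (α * t) = Real.cos (α * t) * α := by ring
  rw [e]; exact h2

theorem exp_eq (α t : ℝ) : exp (I * α * t) = (Real.cos (α * t) : ℂ) + (Real.sin (α * t) : ℂ) * I := by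
  have : I * (α : ℂ) * t = ((α * t : ℝ) : ℂ) * I := by push_cast; ring
  rw [this, exp_mul_I, ← ofReal_cos, ← ofReal_sin]

theorem yre_deriv (c : ℕ → ℂ) (K : ℝ) (hc : ∀ n, ‖c n‖ ≤ K) (α t : ℝ) :
    HasDerivAt (fun s => (yc c α s).re) (-2 * (yc c α t).re + (yc c α (t - 1)).re
      + g2 c (Real.cos (α * t), Real.sin (α * t))) t := by
  have h1 := yc_deriv c K hc α t
  rw [yc_eq c K hc α t] at h1
  have h2 := (reCLM.hasFDerivAt (x := yc c α t)).comp_hasDerivAt t h1
  have e : reCLM (-2 * yc c α t + yc c α (t - 1) + hh c (exp (I * α * t)))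
      = -2 * (yc c α t).re + (yc c α (t - 1)).re + g2 c (Real.cos (α * t), Real.sin (α * t)) := by
    rw [g2, exp_eq]
    simp
  rw [e] at h2
  exact h2

theorem xs_sol (c : ℕ → ℂ) (K : ℝ) (hc : ∀ n, ‖c n‖ ≤ K) (α : ℝ) : IsSol rr (ff c) α (xs c α) := by
  intro t
  rw [hasDerivAt_pi]
  intro i
  have hcs := Real.sin_sq_add_cos_sq (α * t)
  fin_cases i
  · have h := cos_deriv α t
    have e : ff c (fun k => xs c α (t - rr k), α) 0 = -(α * Real.sin (α * t)) := by
      simp only [ff, xs, rr, Matrix.cons_val_zero, Matrix.cons_val_one, sub_zero]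
      have : 1 - Real.cos (α * t) ^ 2 - Real.sin (α * t) ^ 2 = 0 := by linarith
      rw [this]; ring
    change HasDerivAt (fun s => Real.cos (α * s)) (ff c (fun k => xs c α (t - rr k), α) 0) t
    rw [e]; exact h
  · have h := sin_deriv α t
    have e : ff c (fun k => xs c α (t - rr k), α) 1 = α * Real.cos (α * t) := by
      simp only [ff, xs, rr, Matrix.cons_val_zero, Matrix.cons_val_one, sub_zero]
      have : 1 - Real.cos (α * t) ^ 2 - Real.sin (α * t) ^ 2 = 0 := by linarith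
      rw [this]; ring
    change HasDerivAt (fun s => Real.sin (α * s)) (ff c (fun k => xs c α (t - rr k), α) 1) t
    rw [e]; exact h
  · have h := yre_deriv c K hc α t
    have e : ff c (fun k => xs c α (t - rr k), α) 2 = -2 * (yc c α t).re + (yc c α (t - 1)).re
        + g2 c (Real.cos (α * t), Real.sin (α * t)) := by
      simp [ff, xs, rr]
    change HasDerivAt (fun s => (yc c α s).re) (ff c (fun k => xs c α (t - rr k), α) 2) t
    rw [e]; exact h

theorem yc_periodic (c : ℕ → ℂ) (α : ℝ) (hα : α ≠ 0) (t : ℝ) :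
    yc c α (t + 2 * Real.pi / α) = yc c α t := by
  unfold yc
  apply tsum_congr
  intro n
  have e : I * (n : ℂ) * α * ((t + 2 * Real.pi / α : ℝ) : ℂ)
      = I * n * α * t + (n : ℤ) * (2 * Real.pi * I) := by
    have : (α : ℂ) ≠ 0 := by exact_mod_cast hα
    push_cast
    field_simp
  rw [e, exp_add, exp_int_mul_two_pi_mul_I, mul_one]

theorem xs_period (c : ℕ → ℂ) (α : ℝ) (hα : 0 < α) : HasMinPeriod (xs c α) (2 * Real.pi / α) := by
  refine ⟨by positivity, fun t => ?_, fun q hq1 hq2 => ⟨0, fun h => ?_⟩⟩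
  · have e : α * (t + 2 * Real.pi / α) = α * t + 2 * Real.pi := by
      field_simp
    unfold xs
    rw [yc_periodic c α hα.ne', e, Real.cos_add_two_pi, Real.sin_add_two_pi]
  · have h0 := congrFun h 0
    simp only [xs, Matrix.cons_val_zero, zero_add, mul_zero, Real.cos_zero] at h0
    rw [lt_div_iff₀ hα] at hq2
    have h1 := (Real.cos_eq_one_iff_of_lt_of_lt (by nlinarith [Real.pi_pos]) (by nlinarith)).1 h0
    have : 0 < α * q := by positivity
    linarith

/-- the function `u ↦ ff c (u, α)` -/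
noncomputable def Fa (c : ℕ → ℂ) (α : ℝ) (u : Fin (1 + 1) → Fin 3 → ℝ) : Fin 3 → ℝ := ff c (u, α)

theorem Fa_differentiable (c : ℕ → ℂ) (K : ℝ) (hc : ∀ n, ‖c n‖ ≤ K) (α : ℝ) :
    Differentiable ℝ (Fa c α) := by
  intro u
  have h1 : DifferentiableAt ℝ (ff c) (u, α) := (ff_analytic c K hc (u, α) (mem_univ _)).differentiableAt
  have h2 : DifferentiableAt ℝ (fun u : Fin (1 + 1) → Fin 3 → ℝ => (u, α)) u :=
    differentiableAt_id.prodMk (differentiableAt_const _)
  exact h1.comp u h2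

/-- the derivative of the right-hand side -/
theorem Fa_fderiv (c : ℕ → ℂ) (K : ℝ) (hc : ∀ n, ‖c n‖ ≤ K) (α : ℝ)
    (u v : Fin (1 + 1) → Fin 3 → ℝ) :
    fderiv ℝ (Fa c α) u v = ![
      v 0 0 * (1 - (u 0 0) ^ 2 - (u 0 1) ^ 2) + u 0 0 * (-2 * u 0 0 * v 0 0 - 2 * u 0 1 * v 0 1)
        - α * v 0 1,
      v 0 1 * (1 - (u 0 0) ^ 2 - (u 0 1) ^ 2) + u 0 1 * (-2 * u 0 0 * v 0 0 - 2 * u 0 1 * v 0 1)
        + α * v 0 0,
      -2 * v 0 2 + v 1 2 + fderiv ℝ (g2 c) (u 0 0, u 0 1) (v 0 0, v 0 1)] := by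
  have hF := Fa_differentiable c K hc α u
  have hline : HasDerivAt (fun s : ℝ => u + s • v) v 0 := by
    have h1 : HasDerivAt (fun s : ℝ => s • v) ((1 : ℝ) • v) 0 := (hasDerivAt_id (0 : ℝ)).smul_const v
    rw [one_smul] at h1
    exact h1.const_add u
  have hcomp : HasDerivAt (fun s : ℝ => Fa c α (u + s • v)) (fderiv ℝ (Fa c α) u v) 0 := by
    have h0 : u + (0 : ℝ) • v = u := by simp
    have h2 : HasFDerivAt (Fa c α) (fderiv ℝ (Fa c α) u) (u + (0 : ℝ) • v) := by
      rw [h0]; exact hF.hasFDerivAt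
    exact h2.comp_hasDerivAt (0 : ℝ) hline
  have hcoord : ∀ (k : Fin (1 + 1)) (j : Fin 3), HasDerivAt (fun s : ℝ => u k j + s * v k j) (v k j) 0 := by
    intro k j
    have h1 : HasDerivAt (fun s : ℝ => s * v k j) (1 * v k j) 0 := (hasDerivAt_id (0 : ℝ)).mul_const _
    rw [one_mul] at h1
    exact h1.const_add _
  have key : HasDerivAt (fun s : ℝ => Fa c α (u + s • v)) ![
      v 0 0 * (1 - (u 0 0) ^ 2 - (u 0 1) ^ 2) + u 0 0 * (-2 * u 0 0 * v 0 0 - 2 * u 0 1 * v 0 1)
        - α * v 0 1,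
      v 0 1 * (1 - (u 0 0) ^ 2 - (u 0 1) ^ 2) + u 0 1 * (-2 * u 0 0 * v 0 0 - 2 * u 0 1 * v 0 1)
        + α * v 0 0,
      -2 * v 0 2 + v 1 2 + fderiv ℝ (g2 c) (u 0 0, u 0 1) (v 0 0, v 0 1)] 0 := by
    rw [hasDerivAt_pi]
    have h00 := hcoord 0 0
    have h01 := hcoord 0 1
    have h02 := hcoord 0 2
    have h12 := hcoord 1 2
    have hq : HasDerivAt (fun s : ℝ => 1 - (u 0 0 + s * v 0 0) ^ 2 - (u 0 1 + s * v 0 1) ^ 2)
        (-2 * u 0 0 * v 0 0 - 2 * u 0 1 * v 0 1) 0 := by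
      have h1 := ((h00.pow 2).const_sub 1).sub (h01.pow 2)
      refine h1.congr_deriv ?_
      simp only [zero_mul, add_zero]
      ring
    intro i
    fin_cases i
    · have h1 := (h00.mul hq).sub (h01.const_mul α)
      simp only [zero_mul, add_zero] at h1
      exact h1
    · have h1 := (h01.mul hq).add (h00.const_mul α)
      simp only [zero_mul, add_zero] at h1
      exact h1
    · have hg : HasDerivAt (fun s : ℝ => g2 c (u 0 0 + s * v 0 0, u 0 1 + s * v 0 1))
          (fderiv ℝ (g2 c) (u 0 0, u 0 1) (v 0 0, v 0 1)) 0 := by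
        have h1 : HasFDerivAt (g2 c) (fderiv ℝ (g2 c) (u 0 0, u 0 1))
            ((fun s : ℝ => (u 0 0 + s * v 0 0, u 0 1 + s * v 0 1)) 0) := by
          simp only [zero_mul, add_zero]
          exact (g2_analytic c K hc _ (mem_univ _)).differentiableAt.hasFDerivAt
        exact h1.comp_hasDerivAt (0 : ℝ) (h00.prodMk h01)
      have h1 := ((h02.const_mul (-2)).add h12).add hg
      exact h1
  exact hcomp.unique key

end Pool.Agent.R230.DP
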