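import Pool.Agent.R230.DP.Fam

/-!
# Hyperbolicity of the periodic solution at `α = 2π`
-/

set_option autoImplicit false

open Complex Set Filter Topology

namespace Pool.Agent.R230.DP

section lin

variable {N M : ℕ}

theorem cplx_smul (L : (Fin (M + 1) → Fin N → ℝ) →L[ℝ] (Fin N → ℝ)) (d : ℂ)
    (v : Fin (M + 1) → Fin N → ℂ) : cplx L (d • v) = d • cplx L v := by
  have e1 : (fun k j => ((d • v) k j).re) = d.re • (fun k j => (v k j).re) - d.im • (fun k j => (v k j).im) := by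
    funext k j
    simp
  have e2 : (fun k j => ((d • v) k j).im) = d.re • (fun k j => (v k j).im) + d.im • (fun k j => (v k j).re) := by
    funext k j
    simp
  funext i
  change (L (fun k j => ((d • v) k j).re) i : ℂ) + (L (fun k j => ((d • v) k j).im) i : ℂ) * I
    = d * ((L (fun k j => (v k j).re) i : ℂ) + (L (fun k j => (v k j).im) i : ℂ) * I)
  rw [e1, e2]
  simp only [map_sub, map_add, map_smul, Pi.sub_apply, Pi.add_apply, Pi.smul_apply, smul_eq_mul]
  push_cast
  conv_rhs => rw [← re_add_im d]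
  ring_nf
  rw [I_sq]
  ring

theorem cplx_sub (L : (Fin (M + 1) → Fin N → ℝ) →L[ℝ] (Fin N → ℝ))
    (v w : Fin (M + 1) → Fin N → ℂ) : cplx L (v - w) = cplx L v - cplx L w := by
  have e1 : (fun k j => ((v - w) k j).re) = (fun k j => (v k j).re) - (fun k j => (w k j).re) := by
    funext k j
    simp
  have e2 : (fun k j => ((v - w) k j).im) = (fun k j => (v k j).im) - (fun k j => (w k j).im) := by
    funext k j
    simp
  funext i
  change (L (fun k j => ((v - w) k j).re) i : ℂ) + (L (fun k j => ((v - w) k j).im) i : ℂ) * I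
    = ((L (fun k j => (v k j).re) i : ℂ) + (L (fun k j => (v k j).im) i : ℂ) * I)
      - ((L (fun k j => (w k j).re) i : ℂ) + (L (fun k j => (w k j).im) i : ℂ) * I)
  rw [e1, e2]
  simp only [map_sub, Pi.sub_apply]
  push_cast
  ring

theorem cplx_real (L : (Fin (M + 1) → Fin N → ℝ) →L[ℝ] (Fin N → ℝ))
    (v : Fin (M + 1) → Fin N → ℝ) :
    cplx L (fun k j => ((v k j : ℝ) : ℂ)) = fun i => ((L v i : ℝ) : ℂ) := by
  funext i
  have e2 : (fun (k : Fin (M + 1)) (j : Fin N) => (((v k j : ℝ) : ℂ)).im) = 0 := by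
    funext k j
    simp
  simp only [cplx, e2, map_zero, Pi.zero_apply, ofReal_zero, zero_mul, add_zero, ofReal_re]

end lin

/-- linear scalar equation on `[0,1]` -/
theorem lin_ode (w : ℝ → ℂ) (k : ℂ)
    (h : ∀ t ∈ Icc (0 : ℝ) 1, HasDerivWithinAt w (k * w t) (Icc 0 1) t) :
    ∀ t ∈ Icc (0 : ℝ) 1, w t = exp (k * t) * w 0 := by
  have hexp : ∀ t : ℝ, HasDerivAt (fun s : ℝ => exp (-k * (s : ℂ))) (exp (-k * t) * (-k)) t := by
    intro t
    have h3 : HasDerivAt (fun z : ℂ => -k * z) (-k) (t : ℂ) := by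
      simpa using (hasDerivAt_id (t : ℂ)).const_mul (-k)
    exact h3.cexp.comp_ofReal
  have hg : ∀ t ∈ Icc (0 : ℝ) 1, HasDerivWithinAt (fun s : ℝ => exp (-k * (s : ℂ)) * w s) 0 (Icc 0 1) t := by
    intro t ht
    have h1 := (hexp t).hasDerivWithinAt.mul (h t ht)
    refine h1.congr_deriv ?_
    ring
  have hconst := constant_of_has_deriv_right_zero (a := (0 : ℝ)) (b := 1)
    (f := fun s : ℝ => exp (-k * (s : ℂ)) * w s)
    (fun t ht => (hg t ht).continuousWithinAt)
    (fun t ht => (hg t ⟨ht.1, ht.2.le⟩).mono_of_mem_nhdsWithin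
      (Icc_mem_nhdsGE_of_mem ht))
  intro t ht
  have h2 := hconst t ht
  simp only [ofReal_zero, mul_zero, exp_zero, one_mul] at h2
  rw [← h2, ← mul_assoc, ← exp_add]
  simp

theorem third_zero (w : ℝ → ℂ) (μ : ℂ) (hμ : ‖μ‖ = 1)
    (h : ∀ t ∈ Icc (0 : ℝ) 1, HasDerivWithinAt w (-2 * w t + w (t - 1)) (Icc 0 1) t)
    (hp : ∀ θ ∈ Icc (-1 : ℝ) 0, w (1 + θ) = μ * w θ) : ∀ θ ∈ Icc (-1 : ℝ) 0, w θ = 0 := by
  have hμ0 : μ ≠ 0 := by
    intro h0
    rw [h0] at hμ
    simp at hμ
  have h1 : ∀ t ∈ Icc (0 : ℝ) 1, HasDerivWithinAt w ((-2 + μ⁻¹) * w t) (Icc 0 1) t := by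
    intro t ht
    have h2 := hp (t - 1) ⟨by linarith [ht.1], by linarith [ht.2]⟩
    rw [show (1 : ℝ) + (t - 1) = t by ring] at h2
    have h3 := h t ht
    refine h3.congr_deriv ?_
    rw [h2]
    field_simp
  have h4 := lin_ode w (-2 + μ⁻¹) h1
  have h5 := h4 1 ⟨by norm_num, le_refl _⟩
  have h6 := hp 0 ⟨by norm_num, le_refl _⟩
  rw [add_zero, h5] at h6
  simp only [ofReal_one, mul_one] at h6
  have hn : ‖exp (-2 + μ⁻¹)‖ < 1 := by
    rw [norm_exp]
    rw [Real.exp_lt_one_iff]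
    have h7 : (μ⁻¹).re ≤ 1 := by
      refine le_trans (re_le_norm _) ?_
      rw [norm_inv, hμ]; norm_num
    simp only [add_re, neg_re, re_ofNat]
    linarith
  have hw0 : w 0 = 0 := by
    by_contra hne
    have h8 : exp (-2 + μ⁻¹) = μ := mul_right_cancel₀ hne h6
    rw [h8, hμ] at hn
    exact lt_irrefl _ hn
  intro θ hθ
  have h9 := hp θ hθ
  have h10 := h4 (1 + θ) ⟨by linarith [hθ.1], by linarith [hθ.2]⟩
  rw [hw0, mul_zero] at h10
  rw [h10] at h9
  exact (mul_eq_zero.1 h9.symm).resolve_left hμ0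

/-- the variational equation in components -/
theorem var_comp (c : ℕ → ℂ) (K : ℝ) (hc : ∀ n, ‖c n‖ ≤ K) (y : ℝ → Fin 3 → ℂ)
    (hy : VarSol rr (ff c) (2 * Real.pi) (xs c (2 * Real.pi)) 1 y) (t : ℝ) (ht : t ∈ Icc (0 : ℝ) 1) :
    HasDerivWithinAt (fun s => y s 0)
      (-2 * Real.cos (2 * Real.pi * t) * (Real.cos (2 * Real.pi * t) * y t 0
        + Real.sin (2 * Real.pi * t) * y t 1) - 2 * Real.pi * y t 1) (Icc 0 1) t ∧
    HasDerivWithinAt (fun s => y s 1)
      (-2 * Real.sin (2 * Real.pi * t) * (Real.cos (2 * Real.pi * t) * y t 0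
        + Real.sin (2 * Real.pi * t) * y t 1) + 2 * Real.pi * y t 0) (Icc 0 1) t ∧
    HasDerivWithinAt (fun s => y s 2) (-2 * y t 2 + y (t - 1) 2
      + (fderiv ℝ (g2 c) (Real.cos (2 * Real.pi * t), Real.sin (2 * Real.pi * t)) ((y t 0).re, (y t 1).re)
      + fderiv ℝ (g2 c) (Real.cos (2 * Real.pi * t), Real.sin (2 * Real.pi * t)) ((y t 0).im, (y t 1).im) * I))
      (Icc 0 1) t := by
  have h := hy.2 t ht
  rw [hasDerivWithinAt_pi] at h
  have hcs := Real.sin_sq_add_cos_sq (2 * Real.pi * t)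
  have hone : 1 - Real.cos (2 * Real.pi * t) ^ 2 - Real.sin (2 * Real.pi * t) ^ 2 = 0 := by linarith
  have hL : ∀ v : Fin (1 + 1) → Fin 3 → ℝ,
      fderiv ℝ (fun u => ff c (u, 2 * Real.pi)) (fun k => xs c (2 * Real.pi) (t - rr k)) v = ![
      Real.cos (2 * Real.pi * t) * (-2 * Real.cos (2 * Real.pi * t) * v 0 0
        - 2 * Real.sin (2 * Real.pi * t) * v 0 1) - 2 * Real.pi * v 0 1,
      Real.sin (2 * Real.pi * t) * (-2 * Real.cos (2 * Real.pi * t) * v 0 0
        - 2 * Real.sin (2 * Real.pi * t) * v 0 1) + 2 * Real.pi * v 0 0,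
      -2 * v 0 2 + v 1 2 + fderiv ℝ (g2 c) (Real.cos (2 * Real.pi * t), Real.sin (2 * Real.pi * t))
        (v 0 0, v 0 1)] := by
    intro v
    have h1 := Fa_fderiv c K hc (2 * Real.pi) (fun k => xs c (2 * Real.pi) (t - rr k)) v
    have ea : xs c (2 * Real.pi) (t - rr 0) 0 = Real.cos (2 * Real.pi * t) := by simp [xs, rr]
    have eb : xs c (2 * Real.pi) (t - rr 0) 1 = Real.sin (2 * Real.pi * t) := by simp [xs, rr]
    simp only [ea, eb, hone, mul_zero, zero_add] at h1
    exact h1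
  refine ⟨?_, ?_, ?_⟩
  · refine (h 0).congr_deriv ?_
    simp only [cplx, hL, Matrix.cons_val_zero]
    have e0 : y (t - rr 0) 0 = y t 0 := by simp [rr]
    have e1 : y (t - rr 0) 1 = y t 1 := by simp [rr]
    rw [e0, e1]
    conv_rhs => rw [← re_add_im (y t 0), ← re_add_im (y t 1)]
    push_cast
    ring
  · refine (h 1).congr_deriv ?_
    simp only [cplx, hL, Matrix.cons_val_one, Matrix.cons_val_zero]
    have e0 : y (t - rr 0) 0 = y t 0 := by simp [rr]
    have e1 : y (t - rr 0) 1 = y t 1 := by simp [rr]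
    rw [e0, e1]
    conv_rhs => rw [← re_add_im (y t 0), ← re_add_im (y t 1)]
    push_cast
    ring
  · refine (h 2).congr_deriv ?_
    simp only [cplx, hL]
    have e0 : y (t - rr 0) 0 = y t 0 := by simp [rr]
    have e1 : y (t - rr 0) 1 = y t 1 := by simp [rr]
    have e2 : y (t - rr 0) 2 = y t 2 := by simp [rr]
    have e3 : y (t - rr 1) 2 = y (t - 1) 2 := by simp [rr]
    rw [e0, e1, e2, e3]
    simp only [Matrix.cons_val]
    conv_rhs => rw [← re_add_im (y t 2), ← re_add_im (y (t - 1) 2)]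
    push_cast
    ring

/-- radial and tangential components -/
theorem rad_tan (c : ℕ → ℂ) (K : ℝ) (hc : ∀ n, ‖c n‖ ≤ K) (y : ℝ → Fin 3 → ℂ)
    (hy : VarSol rr (ff c) (2 * Real.pi) (xs c (2 * Real.pi)) 1 y) (t : ℝ) (ht : t ∈ Icc (0 : ℝ) 1) :
    (Real.cos (2 * Real.pi * t) * y t 0 + Real.sin (2 * Real.pi * t) * y t 1
      = exp (-2 * t) * y 0 0) ∧
    (-Real.sin (2 * Real.pi * t) * y t 0 + Real.cos (2 * Real.pi * t) * y t 1 = y 0 1) := by
  have hcosd : ∀ s : ℝ, HasDerivAt (fun s : ℝ => ((Real.cos (2 * Real.pi * s) : ℝ) : ℂ))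
      ((-(2 * Real.pi * Real.sin (2 * Real.pi * s)) : ℝ) : ℂ) s :=
    fun s => (cos_deriv (2 * Real.pi) s).ofReal_comp
  have hsind : ∀ s : ℝ, HasDerivAt (fun s : ℝ => ((Real.sin (2 * Real.pi * s) : ℝ) : ℂ))
      ((2 * Real.pi * Real.cos (2 * Real.pi * s) : ℝ) : ℂ) s :=
    fun s => (sin_deriv (2 * Real.pi) s).ofReal_comp
  have hcs : ∀ s : ℝ, ((Real.cos (2 * Real.pi * s) : ℝ) : ℂ) ^ 2 + ((Real.sin (2 * Real.pi * s) : ℝ) : ℂ) ^ 2 = 1 := by
    intro s
    have := Real.sin_sq_add_cos_sq (2 * Real.pi * s)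
    rw [add_comm] at this
    exact_mod_cast this
  constructor
  · have h := lin_ode (fun s => Real.cos (2 * Real.pi * s) * y s 0 + Real.sin (2 * Real.pi * s) * y s 1)
      (-2) ?_ t ht
    · simp only [mul_zero, Real.cos_zero, Real.sin_zero, ofReal_one, ofReal_zero, one_mul, zero_mul,
        add_zero] at h
      exact h
    · intro s hs
      obtain ⟨h0, h1, -⟩ := var_comp c K hc y hy s hs
      have h2 := ((hcosd s).hasDerivWithinAt.mul h0).add ((hsind s).hasDerivWithinAt.mul h1)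
      refine h2.congr_deriv ?_
      have h3 := hcs s
      simp only [ofReal_neg, ofReal_mul, ofReal_ofNat]
      linear_combination (-2 * (((Real.cos (2 * Real.pi * s) : ℝ) : ℂ) * y s 0
        + ((Real.sin (2 * Real.pi * s) : ℝ) : ℂ) * y s 1)) * h3
  · have h := lin_ode (fun s => -Real.sin (2 * Real.pi * s) * y s 0 + Real.cos (2 * Real.pi * s) * y s 1)
      0 ?_ t ht
    · simp only [mul_zero, Real.cos_zero, Real.sin_zero, ofReal_one, ofReal_zero, one_mul, zero_mul,
        neg_zero, zero_add, exp_zero] at h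
      exact h
    · intro s hs
      obtain ⟨h0, h1, -⟩ := var_comp c K hc y hy s hs
      have h2 := ((hsind s).neg.hasDerivWithinAt.mul h0).add ((hcosd s).hasDerivWithinAt.mul h1)
      refine h2.congr_deriv ?_
      simp only [Pi.neg_apply, ofReal_neg, ofReal_mul, ofReal_ofNat]
      ring

/-- the main step -/
theorem core (c : ℕ → ℂ) (K : ℝ) (hc : ∀ n, ‖c n‖ ≤ K) (y : ℝ → Fin 3 → ℂ)
    (hy : VarSol rr (ff c) (2 * Real.pi) (xs c (2 * Real.pi)) 1 y) (μ : ℂ) (hμ : ‖μ‖ = 1)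
    (hp : ∀ θ ∈ Icc (-1 : ℝ) 0, y (1 + θ) = μ • y θ) (h0 : y 0 0 = 0) (h1 : y 0 1 = 0) :
    ∀ θ ∈ Icc (-1 : ℝ) 0, y θ = 0 := by
  have hμ0 : μ ≠ 0 := by
    intro h0
    rw [h0] at hμ
    simp at hμ
  have hz : ∀ t ∈ Icc (0 : ℝ) 1, y t 0 = 0 ∧ y t 1 = 0 := by
    intro t ht
    obtain ⟨hr, hta⟩ := rad_tan c K hc y hy t ht
    rw [h0, mul_zero] at hr
    rw [h1] at hta
    have hcs : ((Real.cos (2 * Real.pi * t) : ℝ) : ℂ) ^ 2 + ((Real.sin (2 * Real.pi * t) : ℝ) : ℂ) ^ 2 = 1 := by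
      have := Real.sin_sq_add_cos_sq (2 * Real.pi * t)
      rw [add_comm] at this
      exact_mod_cast this
    constructor
    · linear_combination (-y t 0) * hcs + ((Real.cos (2 * Real.pi * t) : ℝ) : ℂ) * hr
        - ((Real.sin (2 * Real.pi * t) : ℝ) : ℂ) * hta
    · linear_combination (-y t 1) * hcs + ((Real.sin (2 * Real.pi * t) : ℝ) : ℂ) * hr
        + ((Real.cos (2 * Real.pi * t) : ℝ) : ℂ) * hta
  have hcoord : ∀ (j : Fin 3), ∀ θ ∈ Icc (-1 : ℝ) 0, y (1 + θ) j = μ * y θ j := by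
    intro j θ hθ
    rw [hp θ hθ]
    rfl
  have h2 : ∀ θ ∈ Icc (-1 : ℝ) 0, y θ 2 = 0 := by
    apply third_zero (fun s => y s 2) μ hμ _ (hcoord 2)
    intro t ht
    obtain ⟨-, -, h3⟩ := var_comp c K hc y hy t ht
    obtain ⟨hz0, hz1⟩ := hz t ht
    refine h3.congr_deriv ?_
    rw [hz0, hz1]
    simp only [zero_re, zero_im]
    have : (((0 : ℝ), (0 : ℝ)) : ℝ × ℝ) = 0 := rfl
    rw [this, map_zero]
    simp
  intro θ hθ
  have hθ' : 1 + θ ∈ Icc (0 : ℝ) 1 := ⟨by linarith [hθ.1], by linarith [hθ.2]⟩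
  funext j
  fin_cases j
  · have h3 := hcoord 0 θ hθ
    rw [(hz _ hθ').1] at h3
    exact (mul_eq_zero.1 h3.symm).resolve_left hμ0
  · have h3 := hcoord 1 θ hθ
    rw [(hz _ hθ').2] at h3
    exact (mul_eq_zero.1 h3.symm).resolve_left hμ0
  · exact h2 θ hθ

/-- the derivative of the periodic solution solves the variational equation -/
theorem dx_var (c : ℕ → ℂ) (K : ℝ) (hc : ∀ n, ‖c n‖ ≤ K) (α : ℝ) (t : ℝ) :
    HasDerivAt (cderiv (xs c α))
      (cplx (fderiv ℝ (fun u => ff c (u, α)) (fun k => xs c α (t - rr k)))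
        (fun k => cderiv (xs c α) (t - rr k))) t := by
  have hsol := xs_sol c K hc α
  have hderiv : deriv (xs c α) = fun s => Fa c α (fun k => xs c α (s - rr k)) := by
    funext s
    exact (hsol s).deriv
  have h1 : HasDerivAt (fun s => (fun k => xs c α (s - rr k)))
      (fun k => deriv (xs c α) (t - rr k)) t := by
    rw [hasDerivAt_pi]
    intro k
    have h2 : HasDerivAt (xs c α) (deriv (xs c α) (t - rr k)) (t - rr k) :=
      (hsol (t - rr k)).differentiableAt.hasDerivAt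
    exact h2.comp_sub_const t (rr k)
  have h3 : HasDerivAt (deriv (xs c α)) (fderiv ℝ (Fa c α) (fun k => xs c α (t - rr k))
      (fun k => deriv (xs c α) (t - rr k))) t := by
    have h4 := (Fa_differentiable c K hc α (fun k => xs c α (t - rr k))).hasFDerivAt
    have h4' : HasDerivAt (fun s => Fa c α (fun k => xs c α (s - rr k)))
        (fderiv ℝ (Fa c α) (fun k => xs c α (t - rr k)) (fun k => deriv (xs c α) (t - rr k))) t := by
      have h6 := HasFDerivAt.comp_hasDerivAt t h4 h1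
      exact h6
    exact h4'.congr_of_eventuallyEq (Filter.Eventually.of_forall (fun s => congrFun hderiv s))
  have h5 : cplx (fderiv ℝ (fun u => ff c (u, α)) (fun k => xs c α (t - rr k)))
        (fun k => cderiv (xs c α) (t - rr k)) = fun i => ((fderiv ℝ (Fa c α) (fun k => xs c α (t - rr k))
      (fun k => deriv (xs c α) (t - rr k)) i : ℝ) : ℂ) :=
    cplx_real _ (fun k => deriv (xs c α) (t - rr k))
  rw [h5, hasDerivAt_pi]
  intro i
  rw [hasDerivAt_pi] at h3
  exact (h3 i).ofReal_comp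

theorem dx_zero (c : ℕ → ℂ) (K : ℝ) (hc : ∀ n, ‖c n‖ ≤ K) (α : ℝ) :
    deriv (xs c α) 0 0 = 0 ∧ deriv (xs c α) 0 1 = α ∧
    deriv (xs c α) 0 2 = (∑' n, (I * n * α) * (c n * exp (I * n * α * (0 : ℝ)) * ph n (α : ℂ))).re := by
  have hsol := xs_sol c K hc α 0
  have h1 := hsol.differentiableAt.hasDerivAt
  rw [hasDerivAt_pi] at h1
  refine ⟨?_, ?_, ?_⟩
  · have h2 := cos_deriv α 0
    have h3 := (h1 0).unique h2
    rw [h3]; simp
  · have h2 := sin_deriv α 0
    have h3 := (h1 1).unique h2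
    rw [h3]; simp
  · have h2 := (reCLM.hasFDerivAt (x := yc c α 0)).comp_hasDerivAt (0 : ℝ) (yc_deriv c K hc α 0)
    exact (h1 2).unique h2

theorem hyperbolic (c : ℕ → ℂ) (K : ℝ) (hc : ∀ n, ‖c n‖ ≤ K) :
    Hyperbolic rr (ff c) (2 * Real.pi) 1 (xs c (2 * Real.pi)) := by
  have hpi : (0 : ℝ) < 2 * Real.pi := by positivity
  have hpiC : (2 * (Real.pi : ℂ)) ≠ 0 := by exact_mod_cast hpi.ne'
  have hper := xs_period c (2 * Real.pi) hpi
  rw [div_self hpi.ne'] at hper
  obtain ⟨hd0, hd1, -⟩ := dx_zero c K hc (2 * Real.pi)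
  refine ⟨xs_sol c K hc _, hper, ?_, ?_⟩
  · intro y cc hy hp
    rw [maxDelay_rr] at hp ⊢
    have hp0 := hp 0 ⟨by norm_num, le_refl _⟩
    rw [add_zero] at hp0
    have hp00 := congrFun hp0 0
    have hp01 := congrFun hp0 1
    simp only [Pi.add_apply, Pi.smul_apply, cderiv, hd0, hd1, ofReal_zero, mul_zero, add_zero,
      smul_eq_mul] at hp00 hp01
    obtain ⟨hr, hta⟩ := rad_tan c K hc y hy 1 ⟨by norm_num, le_refl _⟩
    simp only [mul_one, Real.cos_two_pi, Real.sin_two_pi, ofReal_one, one_mul, ofReal_zero, zero_mul,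
      add_zero, neg_zero, zero_add] at hr hta
    -- the radial part vanishes
    have hy00 : y 0 0 = 0 := by
      by_contra hne
      rw [hp00] at hr
      have h1 : exp (-2) = 1 := by
        have h2 : exp (-2) * y 0 0 = 1 * y 0 0 := by rw [one_mul]; exact hr.symm
        exact mul_right_cancel₀ hne h2
      have h3 : ‖exp (-2)‖ < 1 := by
        rw [norm_exp, Real.exp_lt_one_iff]
        simp
      rw [h1] at h3
      simp at h3
    have hcc : cc = 0 := by
      rw [hp01] at hta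
      have h1 : cc * ((2 * Real.pi : ℝ) : ℂ) = 0 := by
        linear_combination hta
      rcases mul_eq_zero.1 h1 with h | h
      · exact h
      · exfalso
        apply hpiC
        exact_mod_cast h
    subst hcc
    set d : ℂ := y 0 1 / (2 * Real.pi) with hd
    refine ⟨d, ?_⟩
    -- the difference
    have hw : VarSol rr (ff c) (2 * Real.pi) (xs c (2 * Real.pi)) 1
        (y - d • cderiv (xs c (2 * Real.pi))) := by
      refine ⟨?_, ?_⟩
      · apply hy.1.sub
        apply ContinuousOn.const_smul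
        exact fun t _ => (dx_var c K hc (2 * Real.pi) t).continuousAt.continuousWithinAt
      · intro t ht
        have h1 := (hy.2 t ht).sub ((dx_var c K hc (2 * Real.pi) t).hasDerivWithinAt.const_smul d)
        refine h1.congr_deriv ?_
        rw [← cplx_smul, ← cplx_sub]
        rfl
    have hperd : ∀ θ : ℝ, cderiv (xs c (2 * Real.pi)) (1 + θ) = cderiv (xs c (2 * Real.pi)) θ := by
      intro θ
      have h1 : (fun s => xs c (2 * Real.pi) (s + 1)) = xs c (2 * Real.pi) := by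
        funext s; exact hper.2.1 s
      have h2 : deriv (fun s => xs c (2 * Real.pi) (s + 1)) θ = deriv (xs c (2 * Real.pi)) (θ + 1) :=
        deriv_comp_add_const _ _ _
      rw [h1] at h2
      unfold cderiv
      rw [add_comm, ← h2]
    have hw1 : ∀ θ ∈ Icc (-1 : ℝ) 0, (y - d • cderiv (xs c (2 * Real.pi))) (1 + θ)
        = (1 : ℂ) • (y - d • cderiv (xs c (2 * Real.pi))) θ := by
      intro θ hθ
      have h1 := hp θ hθ
      simp only [Pi.sub_apply, Pi.smul_apply, one_smul]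
      rw [h1, hperd θ, zero_smul, add_zero]
    have hfin := core c K hc _ hw 1 (by simp) hw1
      (by simp [hy00, cderiv, hd0])
      (by
        simp only [Pi.sub_apply, Pi.smul_apply, cderiv, hd1, smul_eq_mul, hd]
        push_cast
        field_simp
        ring)
    intro θ hθ
    have h1 := hfin θ hθ
    simp only [Pi.sub_apply, Pi.smul_apply] at h1
    exact sub_eq_zero.1 h1
  · intro y μ hμ hμ1 hy hp
    rw [maxDelay_rr] at hp ⊢
    have hp0 := hp 0 ⟨by norm_num, le_refl _⟩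
    rw [add_zero] at hp0
    have hp00 := congrFun hp0 0
    have hp01 := congrFun hp0 1
    simp only [Pi.smul_apply, smul_eq_mul] at hp00 hp01
    obtain ⟨hr, hta⟩ := rad_tan c K hc y hy 1 ⟨by norm_num, le_refl _⟩
    simp only [mul_one, Real.cos_two_pi, Real.sin_two_pi, ofReal_one, one_mul, ofReal_zero, zero_mul,
      add_zero, neg_zero, zero_add] at hr hta
    have hy00 : y 0 0 = 0 := by
      by_contra hne
      rw [hp00] at hr
      have h1 : μ = exp (-2) := mul_right_cancel₀ hne hr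
      have h3 : ‖exp (-2)‖ < 1 := by
        rw [norm_exp, Real.exp_lt_one_iff]
        simp
      rw [← h1, hμ] at h3
      exact lt_irrefl _ h3
    have hy01 : y 0 1 = 0 := by
      by_contra hne
      rw [hp01] at hta
      have h1 : μ = 1 := by
        have h2 : μ * y 0 1 = 1 * y 0 1 := by rw [one_mul]; exact hta
        exact mul_right_cancel₀ hne h2
      exact hμ1 h1
    exact core c K hc y hy μ hμ hp hy00 hy01

end Pool.Agent.R230.DP
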