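import Pool.Agent.R230.DP.Defs
import Pool.Agent.R230.DP.Baire

/-!
# The system: a planar oscillator which drives a linear delay equation
-/

set_option autoImplicit false

open Complex Set Filter Topology

namespace Pool.Agent.R230.DP

/-- the entire function `∑ c_n z^n / n!` -/
noncomputable def hh (c : ℕ → ℂ) (z : ℂ) : ℂ := ∑' n, c n * z ^ n / n.factorial

theorem hh_differentiable (c : ℕ → ℂ) (K : ℝ) (hc : ∀ n, ‖c n‖ ≤ K) : Differentiable ℂ (hh c) := by
  have hK : 0 ≤ K := le_trans (norm_nonneg _) (hc 0)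
  intro z
  have h : DifferentiableOn ℂ (hh c) (Metric.ball 0 (‖z‖ + 1)) := by
    have hsum : Summable (fun n : ℕ => K * ((‖z‖ + 1) ^ n / (n.factorial : ℝ))) :=
      (Real.summable_pow_div_factorial (‖z‖ + 1)).mul_left K
    have hd : ∀ n : ℕ, DifferentiableOn ℂ (fun w : ℂ => c n * w ^ n / n.factorial)
        (Metric.ball 0 (‖z‖ + 1)) := by
      intro n
      exact (((differentiable_id.pow n).const_mul (c n)).div_const _).differentiableOn
    have hb : ∀ (n : ℕ) (w : ℂ), w ∈ Metric.ball (0 : ℂ) (‖z‖ + 1) →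
        ‖c n * w ^ n / n.factorial‖ ≤ K * ((‖z‖ + 1) ^ n / (n.factorial : ℝ)) := by
      intro n w hw
      rw [mem_ball_zero_iff] at hw
      rw [norm_div, norm_mul, norm_pow, Complex.norm_natCast, mul_div_assoc]
      apply mul_le_mul (hc n) _ (by positivity) hK
      gcongr
    exact differentiableOn_tsum_of_summable_norm hsum hd Metric.isOpen_ball hb
  exact h.differentiableAt (Metric.isOpen_ball.mem_nhds (by simp))

/-- the forcing term -/
noncomputable def g2 (c : ℕ → ℂ) (q : ℝ × ℝ) : ℝ := (hh c (q.1 + q.2 * I)).re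

theorem g2_analytic (c : ℕ → ℂ) (K : ℝ) (hc : ∀ n, ‖c n‖ ≤ K) : AnalyticOnNhd ℝ (g2 c) univ := by
  intro q _
  have h1 : AnalyticAt ℝ (hh c) ((q.1 : ℂ) + q.2 * I) :=
    ((hh_differentiable c K hc).analyticAt _).restrictScalars
  have h2 : AnalyticAt ℝ (fun q : ℝ × ℝ => ((q.1 : ℂ) + q.2 * I)) q := by
    apply AnalyticAt.add
    · exact (ofRealCLM.analyticAt _).comp analyticAt_fst
    · exact ((ofRealCLM.analyticAt _).comp analyticAt_snd).mul analyticAt_const
  have h3 : AnalyticAt ℝ (fun q : ℝ × ℝ => hh c ((q.1 : ℂ) + q.2 * I)) q :=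
    AnalyticAt.comp (g := hh c) (f := fun q : ℝ × ℝ => ((q.1 : ℂ) + q.2 * I)) h1 h2
  exact (reCLM.analyticAt _).comp h3

/-- the delays `0` and `1` -/
def rr : Fin (1 + 1) → ℝ := ![0, 1]

theorem maxDelay_rr : maxDelay rr = 1 := by
  unfold maxDelay
  apply le_antisymm
  · apply ciSup_le
    intro k
    fin_cases k <;> simp [rr]
  · have h : BddAbove (range rr) := (Set.finite_range rr).bddAbove
    have := le_ciSup h 1
    simpa [rr] using this

/-- the right-hand side -/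
noncomputable def ff (c : ℕ → ℂ) (w : (Fin (1 + 1) → Fin 3 → ℝ) × ℝ) : Fin 3 → ℝ :=
  ![w.1 0 0 * (1 - (w.1 0 0) ^ 2 - (w.1 0 1) ^ 2) - w.2 * w.1 0 1,
    w.1 0 1 * (1 - (w.1 0 0) ^ 2 - (w.1 0 1) ^ 2) + w.2 * w.1 0 0,
    -2 * w.1 0 2 + w.1 1 2 + g2 c (w.1 0 0, w.1 0 1)]

/-- coordinates -/
noncomputable def pr (k : Fin (1 + 1)) (j : Fin 3) : ((Fin (1 + 1) → Fin 3 → ℝ) × ℝ) →L[ℝ] ℝ :=
  (ContinuousLinearMap.proj j).comp ((ContinuousLinearMap.proj k).comp
    (ContinuousLinearMap.fst ℝ (Fin (1 + 1) → Fin 3 → ℝ) ℝ))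

theorem ff_analytic (c : ℕ → ℂ) (K : ℝ) (hc : ∀ n, ‖c n‖ ≤ K) : AnalyticOnNhd ℝ (ff c) univ := by
  intro w _
  have hp : ∀ k j, AnalyticAt ℝ (fun w : (Fin (1 + 1) → Fin 3 → ℝ) × ℝ => w.1 k j) w :=
    fun k j => (pr k j).analyticAt w
  have hs : AnalyticAt ℝ (fun w : (Fin (1 + 1) → Fin 3 → ℝ) × ℝ => w.2) w := analyticAt_snd
  rw [analyticAt_pi_iff]
  intro i
  fin_cases i
  · exact ((hp 0 0).mul ((analyticAt_const.sub ((hp 0 0).pow 2)).sub ((hp 0 1).pow 2))).sub
      (hs.mul (hp 0 1))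
  · exact ((hp 0 1).mul ((analyticAt_const.sub ((hp 0 0).pow 2)).sub ((hp 0 1).pow 2))).add
      (hs.mul (hp 0 0))
  · have hg : AnalyticAt ℝ (fun w : (Fin (1 + 1) → Fin 3 → ℝ) × ℝ => g2 c (w.1 0 0, w.1 0 1)) w :=
      (g2_analytic c K hc _ (mem_univ _)).comp₂ (hp 0 0) (hp 0 1)
    exact ((analyticAt_const.mul (hp 0 2)).add (hp 1 2)).add hg

/-- the driven component -/
noncomputable def yc (c : ℕ → ℂ) (α t : ℝ) : ℂ := ∑' n, c n * exp (I * n * α * t) * ph n (α : ℂ)

theorem ph_real_le (n : ℕ) (x : ℝ) : ‖ph n (x : ℂ)‖ ≤ Bd 0 n := by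
  have := iter_norm_le n 0 x
  simpa using this

theorem norm_exp_I (n : ℕ) (α t : ℝ) : ‖exp (I * n * α * t)‖ = 1 := by
  have : I * (n : ℂ) * α * t = ((n * α * t : ℝ) : ℂ) * I := by push_cast; ring
  rw [this]
  exact norm_exp_ofReal_mul_I _

theorem term_le (c : ℕ → ℂ) (K : ℝ) (hc : ∀ n, ‖c n‖ ≤ K) (n : ℕ) (α t : ℝ) :
    ‖c n * exp (I * n * α * t) * ph n (α : ℂ)‖ ≤ K * Bd 0 n := by
  rw [norm_mul, norm_mul, norm_exp_I, mul_one]
  exact mul_le_mul (hc n) (ph_real_le n α) (norm_nonneg _) (le_trans (norm_nonneg _) (hc n))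

theorem term_summable (c : ℕ → ℂ) (K : ℝ) (hc : ∀ n, ‖c n‖ ≤ K) (α t : ℝ) :
    Summable (fun n => c n * exp (I * n * α * t) * ph n (α : ℂ)) :=
  Summable.of_norm_bounded ((Bd_summable 0).mul_left K) (fun n => term_le c K hc n α t)

theorem Bd_one_ge (n : ℕ) : (n : ℝ) * Bd 0 n ≤ Bd 1 n := by
  unfold Bd
  simp only [Nat.factorial_zero, Nat.cast_one, pow_zero, div_one, one_mul, Nat.factorial_one,
    pow_one, one_div, div_inv_eq_mul]
  have h : (0 : ℝ) ≤ 12 / 5 / n.factorial := by positivity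
  nlinarith [(Nat.cast_nonneg n : (0 : ℝ) ≤ n)]

/-- time derivative of the driven component -/
theorem yc_deriv (c : ℕ → ℂ) (K : ℝ) (hc : ∀ n, ‖c n‖ ≤ K) (α t : ℝ) :
    HasDerivAt (yc c α) (∑' n, (I * n * α) * (c n * exp (I * n * α * t) * ph n (α : ℂ))) t := by
  have hK : 0 ≤ K := le_trans (norm_nonneg _) (hc 0)
  have hA : ∀ (n : ℕ) (s : ℝ), HasDerivAt (fun s : ℝ => c n * exp (I * n * α * s) * ph n (α : ℂ))
      ((I * n * α) * (c n * exp (I * n * α * s) * ph n (α : ℂ))) s := by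
    intro n s
    have h1 : HasDerivAt (fun s : ℝ => exp (I * n * α * (s : ℂ))) (exp (I * n * α * s) * (I * n * α)) s := by
      have h2 : HasDerivAt (fun z : ℂ => exp (I * n * α * z)) (exp (I * n * α * (s : ℂ)) * (I * n * α)) (s : ℂ) := by
        have h3 : HasDerivAt (fun z : ℂ => I * n * α * z) (I * n * α) (s : ℂ) := by
          simpa using (hasDerivAt_id (s : ℂ)).const_mul (I * n * α)
        exact h3.cexp
      exact h2.comp_ofReal
    have h4 := (h1.const_mul (c n)).mul_const (ph n (α : ℂ))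
    have e5 : (I * n * α) * (c n * exp (I * n * α * s) * ph n (α : ℂ))
        = c n * (exp (I * n * α * s) * (I * n * α)) * ph n (α : ℂ) := by ring
    rw [e5]
    exact h4
  have hB : ∀ (n : ℕ) (s : ℝ), ‖(I * n * α) * (c n * exp (I * n * α * s) * ph n (α : ℂ))‖
      ≤ |α| * K * Bd 1 n := by
    intro n s
    rw [norm_mul]
    have h1 : ‖I * (n : ℂ) * α‖ = n * |α| := by
      rw [norm_mul, norm_mul, norm_I, one_mul, Complex.norm_natCast, Complex.norm_real, Real.norm_eq_abs]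
    rw [h1]
    calc (n : ℝ) * |α| * ‖c n * exp (I * n * α * s) * ph n (α : ℂ)‖
        ≤ (n : ℝ) * |α| * (K * Bd 0 n) := by
          apply mul_le_mul_of_nonneg_left (term_le c K hc n α s) (by positivity)
      _ = |α| * K * (n * Bd 0 n) := by ring
      _ ≤ |α| * K * Bd 1 n := by
          apply mul_le_mul_of_nonneg_left (Bd_one_ge n) (by positivity)
  exact hasDerivAt_tsum (𝕜 := ℝ) (u := fun n => |α| * K * Bd 1 n)
    (g := fun n (s : ℝ) => c n * exp (I * n * α * s) * ph n (α : ℂ))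
    (g' := fun n (s : ℝ) => (I * n * α) * (c n * exp (I * n * α * s) * ph n (α : ℂ)))
    ((Bd_summable 1).mul_left _) hA hB (term_summable c K hc α 0) t

theorem deriv_terms_summable (c : ℕ → ℂ) (K : ℝ) (hc : ∀ n, ‖c n‖ ≤ K) (α t : ℝ) :
    Summable (fun n => (I * n * α) * (c n * exp (I * n * α * t) * ph n (α : ℂ))) := by
  have hK : 0 ≤ K := le_trans (norm_nonneg _) (hc 0)
  refine Summable.of_norm_bounded ((Bd_summable 1).mul_left (|α| * K)) (fun n => ?_)
  rw [norm_mul]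
  have h1 : ‖I * (n : ℂ) * α‖ = n * |α| := by
    rw [norm_mul, norm_mul, norm_I, one_mul, Complex.norm_natCast, Complex.norm_real, Real.norm_eq_abs]
  rw [h1]
  calc (n : ℝ) * |α| * ‖c n * exp (I * n * α * t) * ph n (α : ℂ)‖
      ≤ (n : ℝ) * |α| * (K * Bd 0 n) := by
        apply mul_le_mul_of_nonneg_left (term_le c K hc n α t) (by positivity)
    _ = |α| * K * (n * Bd 0 n) := by ring
    _ ≤ |α| * K * Bd 1 n := by
        apply mul_le_mul_of_nonneg_left (Bd_one_ge n) (by positivity)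

/-- the delay equation for the driven component -/
theorem yc_eq (c : ℕ → ℂ) (K : ℝ) (hc : ∀ n, ‖c n‖ ≤ K) (α t : ℝ) :
    ∑' n, (I * n * α) * (c n * exp (I * n * α * t) * ph n (α : ℂ))
      = -2 * yc c α t + yc c α (t - 1) + hh c (exp (I * α * t)) := by
  have hK : 0 ≤ K := le_trans (norm_nonneg _) (hc 0)
  have hs3 : Summable (fun n => c n * exp (I * α * t) ^ n / n.factorial) := by
    have h1 : ‖exp (I * α * t)‖ = 1 := by
      have := norm_exp_I 1 α t
      simpa using this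
    refine Summable.of_norm_bounded ((Real.summable_pow_div_factorial 1).mul_left K) (fun n => ?_)
    rw [norm_div, norm_mul, norm_pow, Complex.norm_natCast, h1, mul_div_assoc]
    exact mul_le_mul_of_nonneg_right (hc n) (by positivity)
  have hs1 := term_summable c K hc α t
  have hs2 := term_summable c K hc α (t - 1)
  unfold yc hh
  rw [← tsum_mul_left, ← (hs1.mul_left (-2)).tsum_add hs2, ← ((hs1.mul_left (-2)).add hs2).tsum_add hs3]
  apply tsum_congr
  intro n
  have hD : (n.factorial : ℂ) * Dn n (α : ℂ) ≠ 0 :=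
    mul_ne_zero (by exact_mod_cast n.factorial_ne_zero) (Dn_ne n _ (by simp))
  have hf : (n.factorial : ℂ) ≠ 0 := by exact_mod_cast n.factorial_ne_zero
  have hDn : Dn n (α : ℂ) ≠ 0 := Dn_ne n _ (by simp)
  have e1 : exp (I * n * α * ((t - 1 : ℝ) : ℂ)) = exp (I * n * α * t) * exp (-(I * n * α)) := by
    rw [← exp_add]; congr 1; push_cast; ring
  have e2 : exp (I * α * t) ^ n = exp (I * n * α * t) := by
    rw [← exp_nat_mul]; congr 1; ring
  rw [e1, e2, ph]
  have e3 : exp (-(I * n * α)) = I * n * α + 2 - Dn n (α : ℂ) := by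
    rw [Dn]; ring
  rw [e3]
  field_simp
  ring

end Pool.Agent.R230.DP
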