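import Pool.Agent.R230.DP.Hyp

/-!
# The continuation: continuity and uniqueness
-/

set_option autoImplicit false

open Complex Set Filter Topology

namespace Pool.Agent.R230.DP

theorem exists_max (g : ℝ → ℝ) (hc : Continuous g) (q : ℝ) (hq : 0 < q) (hp : ∀ t, g (t + q) = g t) :
    ∃ t₁, ∀ t, g t ≤ g t₁ := by
  obtain ⟨t₁, -, h1⟩ := isCompact_Icc.exists_isMaxOn (Set.nonempty_Icc.2 hq.le) hc.continuousOn
  refine ⟨t₁, fun t => ?_⟩
  have hper : Function.Periodic g q := hp
  obtain ⟨y, hy, hy2⟩ := hper.exists_mem_Ico₀ hq t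
  rw [hy2]
  exact h1 ⟨hy.1, hy.2.le⟩

theorem exists_min (g : ℝ → ℝ) (hc : Continuous g) (q : ℝ) (hq : 0 < q) (hp : ∀ t, g (t + q) = g t) :
    ∃ t₁, ∀ t, g t₁ ≤ g t := by
  obtain ⟨t₁, h1⟩ := exists_max (fun t => -g t) hc.neg q hq (fun t => by simp [hp t])
  exact ⟨t₁, fun t => by linarith [h1 t]⟩

theorem const_of_deriv (g : ℝ → ℝ) (h : ∀ t, HasDerivAt g 0 t) (t : ℝ) : g t = g 0 :=
  is_const_of_deriv_eq_zero (fun t => (h t).differentiableAt) (fun t => (h t).deriv) t 0

theorem unique_sol (c : ℕ → ℂ) (K : ℝ) (hc : ∀ n, ‖c n‖ ≤ K)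
    (hd2 : deriv (xs c (2 * Real.pi)) 0 2 = 0) (α : ℝ) (hα : |α - 2 * Real.pi| < 1 / 2)
    (z : ℝ → Fin 3 → ℝ) (q : ℝ) (hz : IsSol rr (ff c) α z) (hq : |q - 1| < 1 / 2)
    (hper : ∀ t, z (t + q) = z t) (hnear : ∀ t, ‖z t - xs c (2 * Real.pi) t‖ < 1 / 2)
    (hsec : ∑ i, (z 0 i - xs c (2 * Real.pi) 0 i) * deriv (xs c (2 * Real.pi)) 0 i = 0) :
    q = 2 * Real.pi / α ∧ z = xs c α := by
  have hpi := Real.pi_gt_three
  have hpi2 := Real.pi_lt_d2
  have hα' := abs_lt.1 hα
  have hq' := abs_lt.1 hq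
  have hq0 : 0 < q := by linarith
  have hα0 : 0 < α := by linarith
  obtain ⟨hd0, hd1, -⟩ := dx_zero c K hc (2 * Real.pi)
  -- components
  have hz0 : ∀ t, HasDerivAt (fun s => z s 0)
      (z t 0 * (1 - (z t 0) ^ 2 - (z t 1) ^ 2) - α * z t 1) t := by
    intro t
    have h := hz t
    rw [hasDerivAt_pi] at h
    have h0 := h 0
    have e : ff c (fun k => z (t - rr k), α) 0
        = z t 0 * (1 - (z t 0) ^ 2 - (z t 1) ^ 2) - α * z t 1 := by
      simp [ff, rr]
    rw [e] at h0
    exact h0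
  have hz1 : ∀ t, HasDerivAt (fun s => z s 1)
      (z t 1 * (1 - (z t 0) ^ 2 - (z t 1) ^ 2) + α * z t 0) t := by
    intro t
    have h := hz t
    rw [hasDerivAt_pi] at h
    have h0 := h 1
    have e : ff c (fun k => z (t - rr k), α) 1
        = z t 1 * (1 - (z t 0) ^ 2 - (z t 1) ^ 2) + α * z t 0 := by
      simp [ff, rr]
    rw [e] at h0
    exact h0
  have hz2 : ∀ t, HasDerivAt (fun s => z s 2)
      (-2 * z t 2 + z (t - 1) 2 + g2 c (z t 0, z t 1)) t := by
    intro t
    have h := hz t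
    rw [hasDerivAt_pi] at h
    have h0 := h 2
    have e : ff c (fun k => z (t - rr k), α) 2
        = -2 * z t 2 + z (t - 1) 2 + g2 c (z t 0, z t 1) := by
      simp [ff, rr]
    rw [e] at h0
    exact h0
  -- the section condition
  have hz01 : z 0 1 = 0 := by
    rw [Fin.sum_univ_three, hd0, hd1, hd2] at hsec
    simp only [xs, mul_zero, Real.sin_zero, Matrix.cons_val_one, Matrix.cons_val_zero, sub_zero,
      zero_add, add_zero] at hsec
    rcases mul_eq_zero.1 hsec with h | h
    · exact h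
    · exfalso; linarith
  have hn0 : ∀ t, |z t 0 - Real.cos (2 * Real.pi * t)| < 1 / 2 := by
    intro t
    have h1 := norm_le_pi_norm (z t - xs c (2 * Real.pi) t) 0
    have h2 : (z t - xs c (2 * Real.pi) t) 0 = z t 0 - Real.cos (2 * Real.pi * t) := by simp [xs]
    rw [h2, Real.norm_eq_abs] at h1
    exact lt_of_le_of_lt h1 (hnear t)
  have hn1 : ∀ t, |z t 1 - Real.sin (2 * Real.pi * t)| < 1 / 2 := by
    intro t
    have h1 := norm_le_pi_norm (z t - xs c (2 * Real.pi) t) 1
    have h2 : (z t - xs c (2 * Real.pi) t) 1 = z t 1 - Real.sin (2 * Real.pi * t) := by simp [xs]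
    rw [h2, Real.norm_eq_abs] at h1
    exact lt_of_le_of_lt h1 (hnear t)
  -- the radius
  set ρ : ℝ → ℝ := fun t => (z t 0) ^ 2 + (z t 1) ^ 2 with hρ
  have hρpos : ∀ t, 0 < ρ t := by
    intro t
    by_contra hneg
    push Not at hneg
    have h1 : z t 0 = 0 := by
      have : (z t 0) ^ 2 ≤ 0 := by
        have h3 : ρ t = (z t 0) ^ 2 + (z t 1) ^ 2 := rfl
        nlinarith [sq_nonneg (z t 1)]
      nlinarith [sq_nonneg (z t 0)]
    have h2 : z t 1 = 0 := by
      have : (z t 1) ^ 2 ≤ 0 := by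
        have h3 : ρ t = (z t 0) ^ 2 + (z t 1) ^ 2 := rfl
        nlinarith [sq_nonneg (z t 0)]
      nlinarith [sq_nonneg (z t 1)]
    have h3 := hn0 t
    have h4 := hn1 t
    rw [h1, zero_sub, abs_neg] at h3
    rw [h2, zero_sub, abs_neg] at h4
    have h5 := Real.sin_sq_add_cos_sq (2 * Real.pi * t)
    have h6 := sq_abs (Real.cos (2 * Real.pi * t))
    have h7 := sq_abs (Real.sin (2 * Real.pi * t))
    have h8 := abs_nonneg (Real.cos (2 * Real.pi * t))
    have h9 := abs_nonneg (Real.sin (2 * Real.pi * t))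
    nlinarith
  have hρd : ∀ t, HasDerivAt ρ (2 * ρ t * (1 - ρ t)) t := by
    intro t
    have h1 := ((hz0 t).pow 2).add ((hz1 t).pow 2)
    refine h1.congr_deriv ?_
    simp only [hρ]
    push_cast
    ring
  have hρc : Continuous ρ := continuous_iff_continuousAt.2 (fun t => (hρd t).continuousAt)
  have hρp : ∀ t, ρ (t + q) = ρ t := by
    intro t
    simp only [hρ, hper t]
  have hρ1 : ∀ t, ρ t = 1 := by
    obtain ⟨t₁, h1⟩ := exists_max ρ hρc q hq0 hρp
    obtain ⟨t₂, h2⟩ := exists_min ρ hρc q hq0 hρp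
    have h3 : 2 * ρ t₁ * (1 - ρ t₁) = 0 :=
      (IsMaxFilter.isExtr (Filter.Eventually.of_forall h1 : IsLocalMax ρ t₁)).elim
        (fun h => IsLocalMin.hasDerivAt_eq_zero h (hρd t₁)) (fun h => IsLocalMax.hasDerivAt_eq_zero h (hρd t₁))
    have h4 : 2 * ρ t₂ * (1 - ρ t₂) = 0 :=
      (IsMinFilter.isExtr (Filter.Eventually.of_forall h2 : IsLocalMin ρ t₂)).elim
        (fun h => IsLocalMin.hasDerivAt_eq_zero h (hρd t₂)) (fun h => IsLocalMax.hasDerivAt_eq_zero h (hρd t₂))
    have h5 := hρpos t₁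
    have h6 := hρpos t₂
    have h7 : ρ t₁ = 1 := by
      rcases mul_eq_zero.1 h3 with h | h
      · exfalso; linarith
      · linarith
    have h8 : ρ t₂ = 1 := by
      rcases mul_eq_zero.1 h4 with h | h
      · exfalso; linarith
      · linarith
    intro t
    have h9 := h1 t
    have h10 := h2 t
    linarith
  have hρ1' : ∀ t, 1 - (z t 0) ^ 2 - (z t 1) ^ 2 = 0 := by
    intro t
    have : (z t 0) ^ 2 + (z t 1) ^ 2 = 1 := hρ1 t
    linarith
  -- rotation
  have hA : ∀ t, Real.cos (α * t) * z t 0 + Real.sin (α * t) * z t 1 = z 0 0 := by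
    intro t
    have h1 := const_of_deriv (fun s => Real.cos (α * s) * z s 0 + Real.sin (α * s) * z s 1) ?_ t
    · simpa using h1
    · intro s
      have h2 := ((cos_deriv α s).mul (hz0 s)).add ((sin_deriv α s).mul (hz1 s))
      refine h2.congr_deriv ?_
      rw [hρ1' s]
      ring
  have hB : ∀ t, -Real.sin (α * t) * z t 0 + Real.cos (α * t) * z t 1 = 0 := by
    intro t
    have h1 := const_of_deriv (fun s => -Real.sin (α * s) * z s 0 + Real.cos (α * s) * z s 1) ?_ t
    · simpa [hz01] using h1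
    · intro s
      have h2 := ((sin_deriv α s).neg.mul (hz0 s)).add ((cos_deriv α s).mul (hz1 s))
      refine h2.congr_deriv ?_
      rw [hρ1' s]
      simp only [Pi.neg_apply]
      ring
  have hz00 : z 0 0 = 1 := by
    have h1 := hρ1' 0
    rw [hz01] at h1
    have h2 := hn0 0
    rw [mul_zero, Real.cos_zero] at h2
    have h3 := abs_lt.1 h2
    have h4 : (z 0 0 - 1) * (z 0 0 + 1) = 0 := by nlinarith
    rcases mul_eq_zero.1 h4 with h | h
    · linarith
    · exfalso; linarith
  have hc0 : ∀ t, z t 0 = Real.cos (α * t) := by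
    intro t
    have h1 := hA t
    have h2 := hB t
    rw [hz00] at h1
    have h3 := Real.sin_sq_add_cos_sq (α * t)
    linear_combination (-z t 0) * h3 + Real.cos (α * t) * h1 - Real.sin (α * t) * h2
  have hs0 : ∀ t, z t 1 = Real.sin (α * t) := by
    intro t
    have h1 := hA t
    have h2 := hB t
    rw [hz00] at h1
    have h3 := Real.sin_sq_add_cos_sq (α * t)
    linear_combination (-z t 1) * h3 + Real.sin (α * t) * h1 + Real.cos (α * t) * h2
  -- the period
  have hqα : q = 2 * Real.pi / α := by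
    have h1 := hper 0
    rw [zero_add] at h1
    have h2 : Real.cos (α * q) = 1 := by
      rw [← hc0 q, h1, hc0 0, mul_zero, Real.cos_zero]
    obtain ⟨k, hk⟩ := (Real.cos_eq_one_iff _).1 h2
    have h3 : 0 < α * q := by positivity
    have h4 : α * q < 2 * (2 * Real.pi) := by nlinarith
    have h5 : (0 : ℝ) < k := by
      by_contra hneg
      push Not at hneg
      nlinarith
    have h6 : (k : ℝ) < 2 := by
      by_contra hneg
      push Not at hneg
      nlinarith
    have h7 : 0 < k := by exact_mod_cast h5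
    have h8 : k < 2 := by exact_mod_cast h6
    have h9 : k = 1 := by omega
    rw [h9] at hk
    rw [eq_div_iff hα0.ne']
    push_cast at hk
    linarith
  refine ⟨hqα, ?_⟩
  -- the driven component
  set D : ℝ → ℝ := fun t => z t 2 - (yc c α t).re with hD
  have hDd : ∀ t, HasDerivAt D (-2 * D t + D (t - 1)) t := by
    intro t
    have h1 := (hz2 t).sub (yre_deriv c K hc α t)
    refine h1.congr_deriv ?_
    rw [hc0 t, hs0 t]
    simp only [hD]
    ring
  have hDc : Continuous D := continuous_iff_continuousAt.2 (fun t => (hDd t).continuousAt)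
  have hDp : ∀ t, D (t + q) = D t := by
    intro t
    simp only [hD, hper t]
    rw [hqα, yc_periodic c α hα0.ne']
  have hD0 : ∀ t, D t = 0 := by
    obtain ⟨t₁, h1⟩ := exists_max D hDc q hq0 hDp
    obtain ⟨t₂, h2⟩ := exists_min D hDc q hq0 hDp
    have h3 : -2 * D t₁ + D (t₁ - 1) = 0 :=
      IsLocalMax.hasDerivAt_eq_zero (Filter.Eventually.of_forall h1) (hDd t₁)
    have h4 : -2 * D t₂ + D (t₂ - 1) = 0 :=
      IsLocalMin.hasDerivAt_eq_zero (Filter.Eventually.of_forall h2) (hDd t₂)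
    have h5 := h1 (t₁ - 1)
    have h6 := h2 (t₂ - 1)
    intro t
    have h7 := h1 t
    have h8 := h2 t
    linarith
  funext t i
  fin_cases i
  · exact hc0 t
  · exact hs0 t
  · have h1 := hD0 t
    simp only [hD] at h1
    have : z t 2 = (yc c α t).re := by linarith
    exact this

theorem xs_continuous (c : ℕ → ℂ) (K : ℝ) (hc : ∀ n, ‖c n‖ ≤ K) :
    Continuous (fun q : ℝ × ℝ => xs c q.1 q.2) := by
  rw [continuous_pi_iff]
  intro i
  fin_cases i
  · exact Real.continuous_cos.comp (continuous_fst.mul continuous_snd)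
  · exact Real.continuous_sin.comp (continuous_fst.mul continuous_snd)
  · have h : Continuous (fun q : ℝ × ℝ => yc c q.1 q.2) := by
      unfold yc
      refine continuous_tsum ?_ ((Bd_summable 0).mul_left K) (fun n q => term_le c K hc n q.1 q.2)
      intro n
      have h1 : Continuous (fun x : ℝ => ph n (x : ℂ)) := by
        rw [continuous_iff_continuousAt]
        intro x
        exact (ph_analyticAt n x).continuousAt.comp continuous_ofReal.continuousAt
      have h2 : Continuous (fun q : ℝ × ℝ => ph n ((q.1 : ℝ) : ℂ)) := h1.comp continuous_fst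
      have h3 : Continuous (fun q : ℝ × ℝ => exp (I * n * q.1 * q.2)) := by fun_prop
      exact (continuous_const.mul h3).mul h2
    exact Complex.continuous_re.comp h

end Pool.Agent.R230.DP
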